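import Pool.Agent.Q35.TT.Stm
import Pool.Agent.Y720.MZ.Sep

/-!
# Project TT, lemmas LOC and LOG: the local inequalities for the partial derivatives at a torsion point
-/

set_option autoImplicit false

open Pool.Agent.Y720.MZ

namespace Pool.Agent.Q224.TT.Loc

open Pool.Agent.Q35.TT

section alg

variable {K : Type} [Field K]

/-- the first invariant of a quartic form -/
def II (a : Fin 5 → K) : K := 12 * a 0 * a 4 - 3 * a 1 * a 3 + a 2 ^ 2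

/-- the second invariant of a quartic form -/
def JJ (a : Fin 5 → K) : K :=
  72 * a 0 * a 2 * a 4 + 9 * a 1 * a 2 * a 3 - 27 * a 0 * a 3 ^ 2 - 27 * a 4 * a 1 ^ 2 - 2 * a 2 ^ 3

theorem tay0 (a : Fin 5 → K) (s : K) : tay a s 0 = a 1 + 2 * a 2 * s + 3 * a 3 * s ^ 2 + 4 * a 4 * s ^ 3 := rfl
theorem tay1 (a : Fin 5 → K) (s : K) : tay a s 1 = a 2 + 3 * a 3 * s + 6 * a 4 * s ^ 2 := rfl
theorem tay2 (a : Fin 5 → K) (s : K) : tay a s 2 = a 3 + 4 * a 4 * s := rfl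
theorem tay3 (a : Fin 5 → K) (s : K) : tay a s 3 = a 4 := rfl

theorem bq1 (a : Fin 5 → K) (s : K) : bq a ![1, s] = a 0 + a 1 * s + a 2 * s ^ 2 + a 3 * s ^ 3 + a 4 * s ^ 4 := by
  unfold bq
  simp only [Matrix.cons_val_zero, Matrix.cons_val_one]
  ring

theorem bd0 (a : Fin 5 → K) (s : K) : bd a ![1, s] 0 = 4 * a 0 + 3 * a 1 * s + 2 * a 2 * s ^ 2 + a 3 * s ^ 3 := by
  unfold bd
  simp only [Matrix.cons_val_zero, Matrix.cons_val_one]
  ring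

theorem bd1 (a : Fin 5 → K) (s : K) : bd a ![1, s] 1 = tay a s 0 := by
  rw [tay0]
  unfold bd
  simp only [Matrix.cons_val_zero, Matrix.cons_val_one]
  ring

theorem dsc_scale [CharZero K] (a b c r u : K) (hu : u ≠ 0) :
    dsc ((a + 3 * r) / u ^ 2) ((b + 2 * r * a + 3 * r ^ 2) / u ^ 4)
      ((c + r * b + r ^ 2 * a + r ^ 3) / u ^ 6) = dsc a b c / u ^ 12 := by
  unfold dsc
  field_simp
  ring

theorem dsc_tay (a : Fin 5 → K) (s w : K) (hw : w ^ 2 = bq a ![1, s]) :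
    dsc (tay a s 1) (rb w (tay a s 0) (tay a s 2) (tay a s 3))
      (rc w (tay a s 0) (tay a s 1) (tay a s 2) (tay a s 3)) = dc (a 0) (a 1) (a 2) (a 3) (a 4) := by
  rw [← dc_shift s (a 0) (a 1) (a 2) (a 3) (a 4)]
  rw [bq1] at hw
  have e0 : a 0 + s * a 1 + s ^ 2 * a 2 + s ^ 3 * a 3 + s ^ 4 * a 4 = w ^ 2 := by
    rw [hw]
    ring
  have e1 : a 1 + 2 * s * a 2 + 3 * s ^ 2 * a 3 + 4 * s ^ 3 * a 4 = tay a s 0 := by
    rw [tay0]
    ring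
  have e2 : a 2 + 3 * s * a 3 + 6 * s ^ 2 * a 4 = tay a s 1 := by
    rw [tay1]
    ring
  have e3 : a 3 + 4 * s * a 4 = tay a s 2 := by
    rw [tay2]
    ring
  rw [e0, e1, e2, e3, tay3]
  rfl

theorem key (h : S_TRN) [CharZero K] (a : Fin 5 → K) (m s w : K) (n : ℕ) (hm : m ≠ 0) (ht : Tor a s w n) :
    ∃ y', dsc 0 (-II a / (3 * m ^ 8)) (-JJ a / (27 * m ^ 12)) ≠ 0 ∧
      TorP 0 (-II a / (3 * m ^ 8)) (-JJ a / (27 * m ^ 12))
        ((3 * tay a s 0 ^ 2 - 8 * w ^ 2 * tay a s 1) / (12 * w ^ 2 * m ^ 4)) y' n := by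
  obtain ⟨hw, hw2, hdc, htor⟩ := ht
  have hdsc : dsc (tay a s 1) (rb w (tay a s 0) (tay a s 2) (tay a s 3))
      (rc w (tay a s 0) (tay a s 1) (tay a s 2) (tay a s 3)) ≠ 0 := by
    rw [dsc_tay a s w hw2]
    exact hdc
  have hu : m ^ 2 ≠ 0 := pow_ne_zero 2 hm
  have h1 := h K _ _ _ _ _ (m ^ 2) (-(tay a s 1) / 3) n hu hdsc htor
  have h2 := dsc_scale (tay a s 1) (rb w (tay a s 0) (tay a s 2) (tay a s 3))
    (rc w (tay a s 0) (tay a s 1) (tay a s 2) (tay a s 3)) (-(tay a s 1) / 3) (m ^ 2) hu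
  rw [bq1] at hw2
  have e1 : (tay a s 1 + 3 * (-(tay a s 1) / 3)) / (m ^ 2) ^ 2 = 0 := by
    field_simp
    ring
  have e2 : (rb w (tay a s 0) (tay a s 2) (tay a s 3) + 2 * (-(tay a s 1) / 3) * tay a s 1 +
      3 * (-(tay a s 1) / 3) ^ 2) / (m ^ 2) ^ 4 = -II a / (3 * m ^ 8) := by
    unfold rb II
    rw [tay0, tay1, tay2, tay3, hw2]
    field_simp
    ring
  have e3 : (rc w (tay a s 0) (tay a s 1) (tay a s 2) (tay a s 3) +
      -(tay a s 1) / 3 * rb w (tay a s 0) (tay a s 2) (tay a s 3) + (-(tay a s 1) / 3) ^ 2 * tay a s 1 +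
      (-(tay a s 1) / 3) ^ 3) / (m ^ 2) ^ 6 = -JJ a / (27 * m ^ 12) := by
    unfold rb rc JJ
    rw [tay0, tay1, tay2, tay3, hw2]
    field_simp
    ring
  have e4 : (xs w (tay a s 0) (tay a s 1) - -(tay a s 1) / 3) / (m ^ 2) ^ 2 =
      (3 * tay a s 0 ^ 2 - 8 * w ^ 2 * tay a s 1) / (12 * w ^ 2 * m ^ 4) := by
    unfold xs
    field_simp
    ring
  rw [e1, e2, e3, e4] at h1
  rw [e1, e2, e3] at h2
  refine ⟨_, ?_, h1⟩
  rw [h2]
  exact div_ne_zero hdsc (pow_ne_zero _ hu)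

theorem id0 (a : Fin 5 → K) (s : K) : 3 * bd a ![1, s] 0 ^ 2 =
    8 * bq a ![1, s] * (6 * a 0 + 3 * a 1 * s + a 2 * s ^ 2) +
      s ^ 2 * (3 * tay a s 0 ^ 2 - 8 * bq a ![1, s] * tay a s 1) := by
  rw [bd0, bq1, tay0, tay1]
  ring

end alg

section ineq

variable {K : Type} [Field K]

theorem vnat (v : AbsoluteValue K ℝ) (n : ℕ) : v (n : K) ≤ n := by
  induction n with
  | zero => rw [Nat.cast_zero, Nat.cast_zero, map_zero]
  | succ n ih =>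
    rw [Nat.cast_succ, Nat.cast_succ]
    refine (v.add_le _ _).trans ?_
    rw [map_one]
    linarith

theorem vnat' (v : AbsoluteValue K ℝ) (hv : IsNonarchimedean v) (n : ℕ) : v (n : K) ≤ 1 := by
  induction n with
  | zero =>
    rw [Nat.cast_zero, map_zero]
    exact zero_le_one
  | succ n ih =>
    rw [Nat.cast_succ]
    refine (hv _ _).trans ?_
    rw [map_one]
    exact max_le ih le_rfl

theorem mul2 {x y X Y : ℝ} (hx : 0 ≤ x) (hy : 0 ≤ y) (hX : x ≤ X) (hY : y ≤ Y) : x * y ≤ X * Y :=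
  mul_le_mul hX hY hy (hx.trans hX)

theorem vsub (v : AbsoluteValue K ℝ) (x y : K) : v (x - y) ≤ v x + v y := by
  rw [sub_eq_add_neg]
  refine (v.add_le _ _).trans ?_
  rw [v.map_neg]

theorem vsub' (v : AbsoluteValue K ℝ) (hv : IsNonarchimedean v) (x y : K) : v (x - y) ≤ max (v x) (v y) := by
  rw [sub_eq_add_neg]
  refine (hv _ _).trans ?_
  rw [v.map_neg]

theorem vII (v : AbsoluteValue K ℝ) (a : Fin 5 → K) (P : ℝ) (ha : ∀ i, v (a i) ≤ P) : v (II a) ≤ 16 * P ^ 2 := by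
  have hn := v.nonneg
  have h12 : v 12 ≤ 12 := by exact_mod_cast vnat v 12
  have h3 : v 3 ≤ 3 := by exact_mod_cast vnat v 3
  unfold II
  have e1 : v (12 * a 0 * a 4) ≤ 12 * P * P := by
    rw [map_mul, map_mul]
    exact mul2 (mul_nonneg (hn _) (hn _)) (hn _) (mul2 (hn _) (hn _) h12 (ha 0)) (ha 4)
  have e2 : v (3 * a 1 * a 3) ≤ 3 * P * P := by
    rw [map_mul, map_mul]
    exact mul2 (mul_nonneg (hn _) (hn _)) (hn _) (mul2 (hn _) (hn _) h3 (ha 1)) (ha 3)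
  have e3 : v (a 2 ^ 2) ≤ P * P := by
    rw [map_pow, sq]
    exact mul2 (hn _) (hn _) (ha 2) (ha 2)
  have e4 := v.add_le (12 * a 0 * a 4 - 3 * a 1 * a 3) (a 2 ^ 2)
  have e5 := vsub v (12 * a 0 * a 4) (3 * a 1 * a 3)
  nlinarith

theorem vJJ (v : AbsoluteValue K ℝ) (a : Fin 5 → K) (P : ℝ) (ha : ∀ i, v (a i) ≤ P) : v (JJ a) ≤ 137 * P ^ 3 := by
  have hn := v.nonneg
  have h72 : v 72 ≤ 72 := by exact_mod_cast vnat v 72
  have h9 : v 9 ≤ 9 := by exact_mod_cast vnat v 9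
  have h27 : v 27 ≤ 27 := by exact_mod_cast vnat v 27
  have h2 : v 2 ≤ 2 := by exact_mod_cast vnat v 2
  have hP : 0 ≤ P := (hn _).trans (ha 0)
  unfold JJ
  have p3 : ∀ (c x y z : K) (C : ℝ), v c ≤ C → v x ≤ P → v y ≤ P → v z ≤ P → v (c * x * y * z) ≤ C * P * P * P := by
    intro c x y z C hc hx hy hz
    rw [map_mul, map_mul, map_mul]
    exact mul2 (mul_nonneg (mul_nonneg (hn _) (hn _)) (hn _)) (hn _)
      (mul2 (mul_nonneg (hn _) (hn _)) (hn _) (mul2 (hn _) (hn _) hc hx) hy) hz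
  have e1 := p3 72 (a 0) (a 2) (a 4) 72 h72 (ha 0) (ha 2) (ha 4)
  have e2 := p3 9 (a 1) (a 2) (a 3) 9 h9 (ha 1) (ha 2) (ha 3)
  have e3 := p3 27 (a 0) (a 3) (a 3) 27 h27 (ha 0) (ha 3) (ha 3)
  have e4 := p3 27 (a 4) (a 1) (a 1) 27 h27 (ha 4) (ha 1) (ha 1)
  have e5 := p3 2 (a 2) (a 2) (a 2) 2 h2 (ha 2) (ha 2) (ha 2)
  have f : 72 * a 0 * a 2 * a 4 + 9 * a 1 * a 2 * a 3 - 27 * a 0 * a 3 ^ 2 - 27 * a 4 * a 1 ^ 2 - 2 * a 2 ^ 3 =
      72 * a 0 * a 2 * a 4 + 9 * a 1 * a 2 * a 3 - 27 * a 0 * a 3 * a 3 - 27 * a 4 * a 1 * a 1 -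
        2 * a 2 * a 2 * a 2 := by ring
  rw [f]
  have g1 := vsub v (72 * a 0 * a 2 * a 4 + 9 * a 1 * a 2 * a 3 - 27 * a 0 * a 3 * a 3 - 27 * a 4 * a 1 * a 1)
    (2 * a 2 * a 2 * a 2)
  have g2 := vsub v (72 * a 0 * a 2 * a 4 + 9 * a 1 * a 2 * a 3 - 27 * a 0 * a 3 * a 3) (27 * a 4 * a 1 * a 1)
  have g3 := vsub v (72 * a 0 * a 2 * a 4 + 9 * a 1 * a 2 * a 3) (27 * a 0 * a 3 * a 3)
  have g4 := v.add_le (72 * a 0 * a 2 * a 4) (9 * a 1 * a 2 * a 3)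
  have g5 : 137 * P ^ 3 = 72 * P * P * P + 9 * P * P * P + 27 * P * P * P + 27 * P * P * P + 2 * P * P * P := by ring
  rw [g5]
  linarith

theorem vII' (v : AbsoluteValue K ℝ) (hv : IsNonarchimedean v) (a : Fin 5 → K) (P : ℝ) (ha : ∀ i, v (a i) ≤ P) :
    v (II a) ≤ P ^ 2 := by
  have hn := v.nonneg
  have h12 : v 12 ≤ 1 := by exact_mod_cast vnat' v hv 12
  have h3 : v 3 ≤ 1 := by exact_mod_cast vnat' v hv 3
  unfold II
  have e1 : v (12 * a 0 * a 4) ≤ P ^ 2 := by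
    rw [map_mul, map_mul, show P ^ 2 = 1 * P * P by ring]
    exact mul2 (mul_nonneg (hn _) (hn _)) (hn _) (mul2 (hn _) (hn _) h12 (ha 0)) (ha 4)
  have e2 : v (3 * a 1 * a 3) ≤ P ^ 2 := by
    rw [map_mul, map_mul, show P ^ 2 = 1 * P * P by ring]
    exact mul2 (mul_nonneg (hn _) (hn _)) (hn _) (mul2 (hn _) (hn _) h3 (ha 1)) (ha 3)
  have e3 : v (a 2 ^ 2) ≤ P ^ 2 := by
    rw [map_pow, sq, sq]
    exact mul2 (hn _) (hn _) (ha 2) (ha 2)
  refine (hv _ _).trans (max_le ((vsub' v hv _ _).trans (max_le e1 e2)) e3)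

theorem vJJ' (v : AbsoluteValue K ℝ) (hv : IsNonarchimedean v) (a : Fin 5 → K) (P : ℝ) (ha : ∀ i, v (a i) ≤ P) :
    v (JJ a) ≤ P ^ 3 := by
  have hn := v.nonneg
  have h72 : v 72 ≤ 1 := by exact_mod_cast vnat' v hv 72
  have h9 : v 9 ≤ 1 := by exact_mod_cast vnat' v hv 9
  have h27 : v 27 ≤ 1 := by exact_mod_cast vnat' v hv 27
  have h2 : v 2 ≤ 1 := by exact_mod_cast vnat' v hv 2
  unfold JJ
  have p3 : ∀ (c x y z : K), v c ≤ 1 → v x ≤ P → v y ≤ P → v z ≤ P → v (c * x * y * z) ≤ P ^ 3 := by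
    intro c x y z hc hx hy hz
    rw [map_mul, map_mul, map_mul, show P ^ 3 = 1 * P * P * P by ring]
    exact mul2 (mul_nonneg (mul_nonneg (hn _) (hn _)) (hn _)) (hn _)
      (mul2 (mul_nonneg (hn _) (hn _)) (hn _) (mul2 (hn _) (hn _) hc hx) hy) hz
  have e1 := p3 72 (a 0) (a 2) (a 4) h72 (ha 0) (ha 2) (ha 4)
  have e2 := p3 9 (a 1) (a 2) (a 3) h9 (ha 1) (ha 2) (ha 3)
  have e3 := p3 27 (a 0) (a 3) (a 3) h27 (ha 0) (ha 3) (ha 3)
  have e4 := p3 27 (a 4) (a 1) (a 1) h27 (ha 4) (ha 1) (ha 1)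
  have e5 := p3 2 (a 2) (a 2) (a 2) h2 (ha 2) (ha 2) (ha 2)
  have f : 72 * a 0 * a 2 * a 4 + 9 * a 1 * a 2 * a 3 - 27 * a 0 * a 3 ^ 2 - 27 * a 4 * a 1 ^ 2 - 2 * a 2 ^ 3 =
      72 * a 0 * a 2 * a 4 + 9 * a 1 * a 2 * a 3 - 27 * a 0 * a 3 * a 3 - 27 * a 4 * a 1 * a 1 -
        2 * a 2 * a 2 * a 2 := by ring
  rw [f]
  exact (vsub' v hv _ _).trans (max_le ((vsub' v hv _ _).trans (max_le ((vsub' v hv _ _).trans
    (max_le ((hv _ _).trans (max_le e1 e2)) e3)) e4)) e5)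

/-- a quadratic polynomial with coefficients of absolute value at most `P` -/
theorem vquad (v : AbsoluteValue K ℝ) (P S : ℝ) (hS : 1 ≤ S) (s x y z c d : K) (hs : v s ≤ S) (hx : v x ≤ P)
    (hy : v y ≤ P) (hz : v z ≤ P) (C D : ℝ) (hc : v c ≤ C) (hd : v d ≤ D) :
    v (x + c * y * s + d * z * s ^ 2) ≤ (1 + C + D) * P * S ^ 2 := by
  have hn := v.nonneg
  have hP : 0 ≤ P := (hn _).trans hx
  have hC : 0 ≤ C := (hn _).trans hc
  have e1 : v (c * y * s) ≤ C * P * S := by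
    rw [map_mul, map_mul]
    exact mul2 (mul_nonneg (hn _) (hn _)) (hn _) (mul2 (hn _) (hn _) hc hy) hs
  have e2 : v (d * z * s ^ 2) ≤ D * P * S ^ 2 := by
    rw [map_mul, map_mul, map_pow]
    exact mul2 (mul_nonneg (hn _) (hn _)) (pow_nonneg (hn _) _) (mul2 (hn _) (hn _) hd hz)
      (pow_le_pow_left₀ (hn _) hs 2)
  have e3 := v.add_le (x + c * y * s) (d * z * s ^ 2)
  have e4 := v.add_le x (c * y * s)
  have hS2 : 1 ≤ S ^ 2 := one_le_pow₀ hS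
  have hSS : S ≤ S ^ 2 := by nlinarith
  have e5 : P ≤ P * S ^ 2 := le_mul_of_one_le_right hP hS2
  have e6 : C * P * S ≤ C * P * S ^ 2 := mul_le_mul_of_nonneg_left hSS (mul_nonneg hC hP)
  calc v (x + c * y * s + d * z * s ^ 2) ≤ P * S ^ 2 + C * P * S ^ 2 + D * P * S ^ 2 := by linarith
    _ = (1 + C + D) * P * S ^ 2 := by ring

theorem vquad' (v : AbsoluteValue K ℝ) (hv : IsNonarchimedean v) (P S : ℝ) (hS : 1 ≤ S) (s x y z c d : K)
    (hs : v s ≤ S) (hx : v x ≤ P) (hy : v y ≤ P) (hz : v z ≤ P) (hc : v c ≤ 1) (hd : v d ≤ 1) :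
    v (x + c * y * s + d * z * s ^ 2) ≤ P * S ^ 2 := by
  have hn := v.nonneg
  have hP : 0 ≤ P := (hn _).trans hx
  have hS2 : 1 ≤ S ^ 2 := one_le_pow₀ hS
  have hSS : S ≤ S ^ 2 := by nlinarith
  have e1 : v (c * y * s) ≤ P * S ^ 2 := by
    rw [map_mul, map_mul, show P * S ^ 2 = 1 * P * S ^ 2 by ring]
    exact mul2 (mul_nonneg (hn _) (hn _)) (hn _) (mul2 (hn _) (hn _) hc hy) (hs.trans hSS)
  have e2 : v (d * z * s ^ 2) ≤ P * S ^ 2 := by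
    rw [map_mul, map_mul, map_pow, show P * S ^ 2 = 1 * P * S ^ 2 by ring]
    exact mul2 (mul_nonneg (hn _) (hn _)) (pow_nonneg (hn _) _) (mul2 (hn _) (hn _) hd hz)
      (pow_le_pow_left₀ (hn _) hs 2)
  have e5 : P ≤ P * S ^ 2 := le_mul_of_one_le_right hP hS2
  exact (hv _ _).trans (max_le ((hv _ _).trans (max_le (hx.trans e5) e1)) e2)

end ineq

theorem loc (h : S_TRN) : S_LOC := by
  intro K _ _ v A A' B κ hA hB hA' h16 h137 _ _ hLB a m hm ha s w n hn hT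
  have hv := v.nonneg
  obtain ⟨y', hd, ht⟩ := key h a m s w n hm hT
  have hw0 : w ≠ 0 := hT.1
  have hw2 : w ^ 2 = bq a ![1, s] := hT.2.1
  have hM : 0 < v m := v.pos hm
  have hW : 0 < v (w ^ 2) := v.pos (pow_ne_zero 2 hw0)
  have h3K : (3 : K) ≠ 0 := three_ne_zero
  have h3 : 0 < v 3 := v.pos h3K
  have h12K : (12 : K) ≠ 0 := by norm_num
  have h12 : v 12 ≤ 12 := by exact_mod_cast vnat v 12
  have h8 : v 8 ≤ 8 := by exact_mod_cast vnat v 8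
  have h6 : v 6 ≤ 6 := by exact_mod_cast vnat v 6
  have h3' : v 3 ≤ 3 := by exact_mod_cast vnat v 3
  have hb : v (-II a / (3 * m ^ 8)) ≤ A' := by
    rw [map_div₀, v.map_neg, map_mul, map_pow, div_le_iff₀ (by positivity)]
    refine (vII v a _ ha).trans ?_
    calc 16 * (A * v m ^ 4) ^ 2 = (16 * A ^ 2) * v m ^ 8 := by ring
      _ ≤ (A' * v 3) * v m ^ 8 := mul_le_mul_of_nonneg_right h16 (by positivity)
      _ = A' * (v 3 * v m ^ 8) := by ring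
  have hc : v (-JJ a / (27 * m ^ 12)) ≤ A' := by
    have h27 : v 27 = v 3 ^ 3 := by
      rw [← map_pow]
      norm_num
    rw [map_div₀, v.map_neg, map_mul, map_pow, h27, div_le_iff₀ (by positivity)]
    refine (vJJ v a _ ha).trans ?_
    calc 137 * (A * v m ^ 4) ^ 3 = (137 * A ^ 3) * v m ^ 12 := by ring
      _ ≤ (A' * v 3 ^ 3) * v m ^ 12 := mul_le_mul_of_nonneg_right h137 (by positivity)
      _ = A' * (v 3 ^ 3 * v m ^ 12) := by ring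
  have hx := hLB 0 _ _ _ y' (by rw [map_zero]; exact hA') hb hc hd n hn ht
  set H : K := 3 * tay a s 0 ^ 2 - 8 * w ^ 2 * tay a s 1 with hH
  have hN : (1 : ℝ) ≤ (n : ℝ) ^ κ := one_le_pow₀ (by exact_mod_cast Nat.one_le_iff_ne_zero.2 hn)
  have hHle : v H ≤ 12 * B * (n : ℝ) ^ κ * v (w ^ 2) * v m ^ 4 := by
    rw [map_div₀, map_mul, map_mul, map_pow v m, div_le_iff₀ (by
      have := v.pos h12K
      positivity)] at hx
    refine hx.trans ?_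
    calc B * (n : ℝ) ^ κ * (v 12 * v (w ^ 2) * v m ^ 4) = v 12 * (B * (n : ℝ) ^ κ * (v (w ^ 2) * v m ^ 4)) := by ring
      _ ≤ 12 * (B * (n : ℝ) ^ κ * (v (w ^ 2) * v m ^ 4)) := mul_le_mul_of_nonneg_right h12 (by positivity)
      _ = 12 * B * (n : ℝ) ^ κ * v (w ^ 2) * v m ^ 4 := by ring
  set S : ℝ := max 1 (v s) with hS
  have hS1 : 1 ≤ S := le_max_left _ _
  have hsS : v s ≤ S := le_max_right _ _
  have hS2 : 1 ≤ S ^ 2 := one_le_pow₀ hS1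
  have hq2 : v (tay a s 1) ≤ 10 * (A * v m ^ 4) * S ^ 2 := by
    rw [tay1]
    have := vquad v (A * v m ^ 4) S hS1 s (a 2) (a 3) (a 4) 3 6 hsS (ha 2) (ha 3) (ha 4) 3 6 h3' h6
    linarith
  have he : v (6 * a 0 + 3 * a 1 * s + a 2 * s ^ 2) ≤ 10 * (A * v m ^ 4) * S ^ 2 := by
    have e1 : v (6 * a 0) ≤ 6 * (A * v m ^ 4) := by
      rw [map_mul]
      exact mul2 (hv _) (hv _) h6 (ha 0)
    have e2 : v (3 * a 1 * s) ≤ 3 * (A * v m ^ 4) * S := by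
      rw [map_mul, map_mul]
      exact mul2 (mul_nonneg (hv _) (hv _)) (hv _) (mul2 (hv _) (hv _) h3' (ha 1)) hsS
    have e3 : v (a 2 * s ^ 2) ≤ (A * v m ^ 4) * S ^ 2 := by
      rw [map_mul, map_pow]
      exact mul2 (hv _) (pow_nonneg (hv _) _) (ha 2) (pow_le_pow_left₀ (hv _) hsS 2)
    have e4 := v.add_le (6 * a 0 + 3 * a 1 * s) (a 2 * s ^ 2)
    have e5 := v.add_le (6 * a 0) (3 * a 1 * s)
    have hP : 0 ≤ A * v m ^ 4 := by positivity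
    have hSS : S ≤ S ^ 2 := by nlinarith
    have e6 : A * v m ^ 4 ≤ A * v m ^ 4 * S ^ 2 := le_mul_of_one_le_right hP hS2
    have e7 : 3 * (A * v m ^ 4) * S ≤ 3 * (A * v m ^ 4) * S ^ 2 := mul_le_mul_of_nonneg_left hSS (by positivity)
    linarith
  have hT0 : 0 ≤ A * v m ^ 4 * v (w ^ 2) * S ^ 2 := by positivity
  have hT1 : 0 ≤ 12 * B * (n : ℝ) ^ κ * v (w ^ 2) * v m ^ 4 := by positivity
  have f1 : A * v m ^ 4 * v (w ^ 2) * S ^ 2 ≤ (n : ℝ) ^ κ * (A * v m ^ 4 * v (w ^ 2) * S ^ 2) :=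
    le_mul_of_one_le_left hT0 hN
  have f2 : 12 * B * (n : ℝ) ^ κ * v (w ^ 2) * v m ^ 4 ≤ 12 * B * (n : ℝ) ^ κ * v (w ^ 2) * v m ^ 4 * S ^ 2 :=
    le_mul_of_one_le_right hT1 hS2
  have g8 : ∀ q : K, v q ≤ 10 * (A * v m ^ 4) * S ^ 2 → v (8 * w ^ 2 * q) ≤
      80 * (A * v m ^ 4 * v (w ^ 2) * S ^ 2) := by
    intro q hq
    rw [map_mul, map_mul]
    have := mul2 (mul_nonneg (hv _) (hv _)) (hv _) (mul_le_mul_of_nonneg_right h8 hW.le) hq
    linarith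
  rw [← hw2]
  rw [Fin.forall_fin_two]
  constructor
  · have e1 : v 3 * v (bd a ![1, s] 0) ^ 2 = v (8 * w ^ 2 * (6 * a 0 + 3 * a 1 * s + a 2 * s ^ 2) + s ^ 2 * H) := by
      rw [← map_pow, ← map_mul, id0, ← hw2]
    rw [e1]
    refine (v.add_le _ _).trans ?_
    have e2 : v (s ^ 2 * H) ≤ S ^ 2 * (12 * B * (n : ℝ) ^ κ * v (w ^ 2) * v m ^ 4) := by
      rw [map_mul, map_pow]
      exact mul2 (pow_nonneg (hv _) _) (hv _) (pow_le_pow_left₀ (hv _) hsS 2) hHle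
    have e3 := g8 _ he
    nlinarith
  · have e1 : v 3 * v (bd a ![1, s] 1) ^ 2 = v (H + 8 * w ^ 2 * tay a s 1) := by
      rw [← map_pow, ← map_mul, bd1, hH]
      congr 1
      ring
    rw [e1]
    refine (v.add_le _ _).trans ?_
    have e3 := g8 _ hq2
    nlinarith

theorem log_ (h : S_TRN) : S_LOG := by
  intro K _ _ v hna h2 h3 hLB a m hm ha s w n hn hT
  have hv := v.nonneg
  obtain ⟨y', hd, ht⟩ := key h a m s w n hm hT
  have hw0 : w ≠ 0 := hT.1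
  have hw2 : w ^ 2 = bq a ![1, s] := hT.2.1
  have hM : 0 < v m := v.pos hm
  have hW : 0 < v (w ^ 2) := v.pos (pow_ne_zero 2 hw0)
  have h12 : v 12 = 1 := by
    rw [show (12 : K) = 2 ^ 2 * 3 by norm_num, map_mul, map_pow, h2, h3]
    norm_num
  have h8 : v 8 ≤ 1 := by exact_mod_cast vnat' v hna 8
  have h6 : v 6 ≤ 1 := by exact_mod_cast vnat' v hna 6
  have hb : v (-II a / (3 * m ^ 8)) ≤ 1 := by
    rw [map_div₀, v.map_neg, map_mul, map_pow, h3, one_mul, div_le_iff₀ (by positivity), one_mul]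
    refine (vII' v hna a _ ha).trans (le_of_eq ?_)
    ring
  have hc : v (-JJ a / (27 * m ^ 12)) ≤ 1 := by
    have h27 : v 27 = 1 := by
      rw [show (27 : K) = 3 ^ 3 by norm_num, map_pow, h3, one_pow]
    rw [map_div₀, v.map_neg, map_mul, map_pow, h27, one_mul, div_le_iff₀ (by positivity), one_mul]
    refine (vJJ' v hna a _ ha).trans (le_of_eq ?_)
    ring
  have hx := hLB 0 _ _ _ y' (by rw [map_zero]; exact zero_le_one) hb hc hd n hn ht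
  rw [pow_zero, mul_one] at hx
  set H : K := 3 * tay a s 0 ^ 2 - 8 * w ^ 2 * tay a s 1 with hH
  have hHle : v H ≤ v (w ^ 2) * v m ^ 4 := by
    rw [map_div₀, map_mul, map_mul, map_pow v m, h12, one_mul, div_le_iff₀ (by positivity), one_mul] at hx
    exact hx
  set S : ℝ := max 1 (v s) with hS
  have hS1 : 1 ≤ S := le_max_left _ _
  have hsS : v s ≤ S := le_max_right _ _
  have hS2 : 1 ≤ S ^ 2 := one_le_pow₀ hS1
  have hSS : S ≤ S ^ 2 := by nlinarith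
  have hP : 0 ≤ v m ^ 4 := by positivity
  have hq2 : v (tay a s 1) ≤ v m ^ 4 * S ^ 2 := by
    rw [tay1]
    exact vquad' v hna (v m ^ 4) S hS1 s (a 2) (a 3) (a 4) 3 6 hsS (ha 2) (ha 3) (ha 4) h3.le h6
  have he : v (6 * a 0 + 3 * a 1 * s + a 2 * s ^ 2) ≤ v m ^ 4 * S ^ 2 := by
    have e1 : v (6 * a 0) ≤ v m ^ 4 * S ^ 2 := by
      rw [map_mul]
      refine (mul2 (hv _) (hv _) h6 (ha 0)).trans ?_
      rw [one_mul]
      exact le_mul_of_one_le_right hP hS2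
    have e2 : v (3 * a 1 * s) ≤ v m ^ 4 * S ^ 2 := by
      rw [map_mul, map_mul, h3, one_mul]
      exact mul2 (hv _) (hv _) (ha 1) (hsS.trans hSS)
    have e3 : v (a 2 * s ^ 2) ≤ v m ^ 4 * S ^ 2 := by
      rw [map_mul, map_pow]
      exact mul2 (hv _) (pow_nonneg (hv _) _) (ha 2) (pow_le_pow_left₀ (hv _) hsS 2)
    exact (hna _ _).trans (max_le ((hna _ _).trans (max_le e1 e2)) e3)
  have hHle' : v H ≤ v (w ^ 2) * S ^ 2 * v m ^ 4 := by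
    refine hHle.trans ?_
    rw [mul_right_comm]
    exact le_mul_of_one_le_right (by positivity) hS2
  have g8 : ∀ q : K, v q ≤ v m ^ 4 * S ^ 2 → v (8 * w ^ 2 * q) ≤ v (w ^ 2) * S ^ 2 * v m ^ 4 := by
    intro q hq
    rw [map_mul, map_mul]
    have := mul2 (mul_nonneg (hv 8) (hv (w ^ 2))) (hv q) (mul_le_mul_of_nonneg_right h8 hW.le) hq
    rw [one_mul] at this
    refine this.trans (le_of_eq ?_)
    ring
  rw [← hw2]
  rw [Fin.forall_fin_two]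
  constructor
  · have e1 : v (bd a ![1, s] 0) ^ 2 = v (8 * w ^ 2 * (6 * a 0 + 3 * a 1 * s + a 2 * s ^ 2) + s ^ 2 * H) := by
      rw [hH, hw2, ← id0, map_mul, map_pow, h3, one_mul]
    rw [e1]
    refine (hna _ _).trans (max_le (g8 _ he) ?_)
    rw [map_mul, map_pow]
    refine (mul2 (pow_nonneg (hv _) _) (hv _) (pow_le_pow_left₀ (hv _) hsS 2) hHle).trans (le_of_eq ?_)
    ring
  · have e1 : v (bd a ![1, s] 1) ^ 2 = v (H + 8 * w ^ 2 * tay a s 1) := by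
      rw [bd1, ← map_pow, hH, sub_add_cancel, map_mul, h3, one_mul]
    rw [e1]
    exact (hna _ _).trans (max_le hHle' (g8 _ hq2))

end Pool.Agent.Q224.TT.Loc
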