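import Pool.Agent.Q224.TT.Word

/-!
# Monotone algebras on well-orders
-/

set_option autoImplicit false

namespace Q224.TT

variable {S : Type} {ar : S → ℕ}

/-- strictly monotone operations -/
structure Alg {S : Type} (ar : S → ℕ) (W : Type) [LinearOrder W] where
  op : (f : S) → (Fin (ar f) → W) → W
  mono : ∀ (f : S) (v : Fin (ar f) → W) (i : Fin (ar f)) (x y : W), x < y →
    op f (Function.update v i x) < op f (Function.update v i y)

namespace Alg

variable {W : Type} [LinearOrder W]

/-- evaluation of terms -/
def eval (A : Alg ar W) {V : Type} (a : V → W) : Term ar V → W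
  | .var x => a x
  | .app f ts => A.op f (fun i => A.eval a (ts i))

/-- evaluation of ground terms -/
def evalG (A : Alg ar W) (w : W) : Ground ar → W
  | .app f ts => A.op f (fun i => A.evalG w (ts i))
  | .fresh _ => w

/-- compatibility with a set of rules -/
def Compat (A : Alg ar W) (R : Set (Term ar ℕ × Term ar ℕ)) : Prop :=
  ∀ p ∈ R, ∀ a : ℕ → W, A.eval a p.2 < A.eval a p.1

theorem evalG_subst (A : Alg ar W) (w : W) (σ : ℕ → Ground ar) (t : Term ar ℕ) :
    A.evalG w (t.subst σ) = A.eval (fun x => A.evalG w (σ x)) t := by
  induction t with
  | var x => rfl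
  | app f ts ih =>
    simp only [Term.subst, evalG, eval]
    congr 1
    funext i
    exact ih i

theorem le_op [WellFoundedLT W] (A : Alg ar W) (f : S) (v : Fin (ar f) → W) (i : Fin (ar f)) :
    v i ≤ A.op f v := by
  have h : StrictMono (fun x => A.op f (Function.update v i x)) := fun x y hxy => A.mono f v i x y hxy
  have := h.le_apply (x := v i)
  simpa [Function.update_eq_self] using this

/-- an algebra on a well-order which is compatible with the rules gives total termination -/
theorem totallyTerminating [WellFoundedLT W] [Nonempty W] (A : Alg ar W)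
    {R : Set (Term ar ℕ × Term ar ℕ)} (hA : A.Compat R) : TotallyTerminating R := by
  classical
  obtain ⟨w⟩ := (inferInstance : Nonempty W)
  set e := A.evalG w with he
  refine ⟨fun s t => e t < e s ∨ (e s = e t ∧ aux s t), ?_, ?_, ?_, ?_⟩
  · have htri : ∀ s t : Ground ar, (e t < e s ∨ (e s = e t ∧ aux s t)) ∨ s = t ∨
        (e s < e t ∨ (e t = e s ∧ aux t s)) := by
      intro s t
      rcases lt_trichotomy (e t) (e s) with h | h | h
      · exact Or.inl (Or.inl h)
      · rcases aux_trich s t with h' | h' | h'
        · exact Or.inl (Or.inr ⟨h.symm, h'⟩)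
        · exact Or.inr (Or.inl h')
        · exact Or.inr (Or.inr (Or.inr ⟨h, h'⟩))
      · exact Or.inr (Or.inr (Or.inl h))
    have hirr : ∀ s : Ground ar, ¬ aux s s := fun s => aux_wf.irrefl.irrefl s
    have haux : ∀ s t u : Ground ar, aux s t → aux t u → aux s u := by
      intro s t u h1 h2
      rcases aux_trich s u with h | h | h
      · exact h
      · subst h
        exact absurd h2 (aux_wf.asymmetric _ _ h1)
      · exact absurd h1 (aux_wf.asymmetric₃ _ _ _ h h2)
    exact { irrefl := fun s h => by
              rcases h with h | ⟨-, h⟩
              · exact lt_irrefl _ h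
              · exact hirr s h
            trans := fun s t u h1 h2 => by
              rcases h1 with h1 | ⟨h1, h1'⟩ <;> rcases h2 with h2 | ⟨h2, h2'⟩
              · exact Or.inl (h2.trans h1)
              · exact Or.inl (h2 ▸ h1)
              · exact Or.inl (h1 ▸ h2)
              · exact Or.inr ⟨h1.trans h2, haux _ _ _ h1' h2'⟩
            trichotomous := fun s t h1 h2 => by
              rcases htri s t with h | h | h
              · exact absurd h h1
              · exact h
              · exact absurd h h2 }
  · have hwf : WellFounded (Prod.Lex (fun x y : W => x < y) (fun s t : Ground ar => aux t s)) :=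
      WellFounded.prod_lex (wellFounded_lt) aux_wf
    refine Subrelation.wf ?_ (InvImage.wf (fun s : Ground ar => (e s, s)) hwf)
    intro s t h
    show Prod.Lex _ _ (e s, s) (e t, t)
    rcases h with h | ⟨h, h'⟩
    · exact Prod.Lex.left _ _ h
    · rw [h]
      exact Prod.Lex.right _ h'
  · intro f v i s t h
    have key : ∀ u, e (.app f (Function.update v i u)) =
        A.op f (Function.update (fun j => e (v j)) i (e u)) := by
      intro u
      show A.op f (fun j => A.evalG w (Function.update v i u j)) = _
      congr 1
      funext j
      by_cases hj : j = i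
      · subst hj
        rw [Function.update_self, Function.update_self]
      · rw [Function.update_of_ne hj, Function.update_of_ne hj]
    rcases h with h | ⟨h, h'⟩
    · left
      rw [key, key]
      exact A.mono _ _ _ _ _ h
    · right
      exact ⟨by rw [key, key, h], aux_mono f v i s t h'⟩
  · intro p hp σ
    left
    rw [he, evalG_subst, evalG_subst]
    exact hA p hp _

/-- transport along an order isomorphism -/
def transport {W' : Type} [LinearOrder W'] (A : Alg ar W) (φ : W ≃o W') : Alg ar W' where
  op f v := φ (A.op f (fun i => φ.symm (v i)))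
  mono f v i x y h := by
    have key : ∀ z, (fun j => φ.symm (Function.update v i z j)) =
        Function.update (fun j => φ.symm (v j)) i (φ.symm z) := by
      intro z
      funext j
      by_cases hj : j = i
      · subst hj
        rw [Function.update_self, Function.update_self]
      · rw [Function.update_of_ne hj, Function.update_of_ne hj]
    rw [key, key]
    exact φ.strictMono (A.mono _ _ _ _ _ (φ.symm.strictMono h))

theorem transport_eval {W' : Type} [LinearOrder W'] (A : Alg ar W) (φ : W ≃o W')
    (a : ℕ → W') (t : Term ar ℕ) :
    (A.transport φ).eval a t = φ (A.eval (fun x => φ.symm (a x)) t) := by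
  induction t with
  | var x => simp [eval]
  | app f ts ih =>
    show φ (A.op f fun i => φ.symm ((A.transport φ).eval a (ts i))) =
      φ (A.op f fun i => A.eval (fun x => φ.symm (a x)) (ts i))
    congr 2
    funext i
    rw [ih i]
    simp

theorem transport_compat {W' : Type} [LinearOrder W'] {A : Alg ar W}
    {R : Set (Term ar ℕ × Term ar ℕ)} (hA : A.Compat R) (φ : W ≃o W') :
    (A.transport φ).Compat R := by
  intro p hp a
  rw [transport_eval, transport_eval]
  exact φ.strictMono (hA p hp _)

variable {S' : Type} {ar' : S' → ℕ}

/-- two algebras on the same carrier -/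
def sum (A : Alg ar W) (A' : Alg ar' W) : Alg (Sum.elim ar ar') W where
  op f := match f with
    | .inl f => A.op f
    | .inr f => A'.op f
  mono f := match f with
    | .inl f => A.mono f
    | .inr f => A'.mono f

theorem sum_eval_inl (A : Alg ar W) (A' : Alg ar' W) (a : ℕ → W) (t : Term ar ℕ) :
    (A.sum A').eval a t.inl = A.eval a t := by
  induction t with
  | var x => rfl
  | app f ts ih =>
    show A.op f (fun i => (A.sum A').eval a (ts i).inl) = A.op f (fun i => A.eval a (ts i))
    congr 1
    funext i
    exact ih i

theorem sum_eval_inr (A : Alg ar W) (A' : Alg ar' W) (a : ℕ → W) (t : Term ar' ℕ) :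
    (A.sum A').eval a t.inr = A'.eval a t := by
  induction t with
  | var x => rfl
  | app f ts ih =>
    show A'.op f (fun i => (A.sum A').eval a (ts i).inr) = A'.op f (fun i => A'.eval a (ts i))
    congr 1
    funext i
    exact ih i

theorem sum_compat {A : Alg ar W} {A' : Alg ar' W} {R : Set (Term ar ℕ × Term ar ℕ)}
    {R' : Set (Term ar' ℕ × Term ar' ℕ)} (h : A.Compat R) (h' : A'.Compat R') :
    (A.sum A').Compat (union R R') := by
  rintro p (⟨q, hq, rfl⟩ | ⟨q, hq, rfl⟩) a
  · rw [sum_eval_inl, sum_eval_inl]
    exact h q hq a
  · rw [sum_eval_inr, sum_eval_inr]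
    exact h' q hq a

end Alg

end Q224.TT
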