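import Pool.Agent.Q224.TT.Alg

/-!
# Enlarging a monotone algebra
-/

set_option autoImplicit false

namespace Q224.TT

variable {S : Type} {ar : S → ℕ}

section block

variable {X : Type} [LinearOrder X] {N : Type} [AddCommMonoid N] [LinearOrder N]

/-- pairs `(x, m)` with `P x m`, ordered lexicographically -/
def Blk (P : X → N → Prop) : Type := {p : X ×ₗ N // P (ofLex p).1 (ofLex p).2}

instance (P : X → N → Prop) : LinearOrder (Blk P) :=
  inferInstanceAs (LinearOrder {p : X ×ₗ N // P (ofLex p).1 (ofLex p).2})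

instance (P : X → N → Prop) [WellFoundedLT X] [WellFoundedLT N] : WellFoundedLT (Blk P) :=
  inferInstanceAs (WellFoundedLT {p : X ×ₗ N // P (ofLex p).1 (ofLex p).2})

variable {P : X → N → Prop}

/-- first component -/
def Blk.fst (p : Blk P) : X := (ofLex p.1).1

/-- second component -/
def Blk.snd (p : Blk P) : N := (ofLex p.1).2

/-- constructor -/
def Blk.mk (x : X) (m : N) (h : P x m) : Blk P := ⟨toLex (x, m), h⟩

theorem Blk.prop (p : Blk P) : P p.fst p.snd := p.2

theorem Blk.fst_mk (x : X) (m : N) (h : P x m) : (Blk.mk x m h).fst = x := rfl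

theorem Blk.snd_mk (x : X) (m : N) (h : P x m) : (Blk.mk x m h).snd = m := rfl

theorem Blk.lt_iff {p q : Blk P} : p < q ↔ p.fst < q.fst ∨ p.fst = q.fst ∧ p.snd < q.snd :=
  Prod.Lex.lt_iff

theorem Blk.fst_le {p q : Blk P} (h : p ≤ q) : p.fst ≤ q.fst := by
  rcases h.eq_or_lt with rfl | h
  · exact le_rfl
  · rcases Blk.lt_iff.1 h with h | h
    · exact h.le
    · exact h.1.le

theorem sum_mem {x : X} (h0 : ∀ x, P x 0) (hadd : ∀ x m n, P x m → P x n → P x (m + n))
    {ι : Type} (s : Finset ι) (g : ι → N) (hg : ∀ i ∈ s, P x (g i)) : P x (∑ i ∈ s, g i) := by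
  classical
  induction s using Finset.induction_on with
  | empty => simpa using h0 x
  | insert i s hi ih =>
    rw [Finset.sum_insert hi]
    exact hadd _ _ _ (hg i (Finset.mem_insert_self i s))
      (ih fun j hj => hg j (Finset.mem_insert_of_mem hj))

/-- the enlarged algebra -/
def blkAlg [WellFoundedLT X] [IsOrderedCancelAddMonoid N] (A : Alg ar X)
    (h0 : ∀ x, P x 0) (hadd : ∀ x m n, P x m → P x n → P x (m + n))
    (hup : ∀ x y m, x ≤ y → P x m → P y m) : Alg ar (Blk P) where
  op f v := Blk.mk (A.op f (fun i => (v i).fst)) (∑ i, (v i).snd)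
    (sum_mem h0 hadd _ _ fun i _ => hup _ _ _ (A.le_op f (fun i => (v i).fst) i) (v i).prop)
  mono f v i x y h := by
    rw [Blk.lt_iff]
    simp only [Blk.fst_mk, Blk.snd_mk]
    have key : ∀ z, (fun j => (Function.update v i z j).fst) =
        Function.update (fun j => (v j).fst) i z.fst := by
      intro z
      funext j
      by_cases hj : j = i
      · subst hj
        rw [Function.update_self, Function.update_self]
      · rw [Function.update_of_ne hj, Function.update_of_ne hj]
    rw [key, key]
    rcases Blk.lt_iff.1 h with h | ⟨h1, h2⟩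
    · exact Or.inl (A.mono _ _ _ _ _ h)
    · right
      refine ⟨by rw [h1], ?_⟩
      refine Finset.sum_lt_sum (fun j _ => ?_) ⟨i, Finset.mem_univ i, ?_⟩
      · by_cases hj : j = i
        · subst hj
          rw [Function.update_self, Function.update_self]
          exact h2.le
        · rw [Function.update_of_ne hj, Function.update_of_ne hj]
      · rw [Function.update_self, Function.update_self]
        exact h2

theorem blk_eval [WellFoundedLT X] [IsOrderedCancelAddMonoid N] (A : Alg ar X)
    (h0 : ∀ x, P x 0) (hadd : ∀ x m n, P x m → P x n → P x (m + n))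
    (hup : ∀ x y m, x ≤ y → P x m → P y m) (a : ℕ → Blk P) (t : Term ar ℕ) :
    ((blkAlg A h0 hadd hup).eval a t).fst = A.eval (fun x => (a x).fst) t := by
  induction t with
  | var x => rfl
  | app f ts ih =>
    show A.op f (fun i => ((blkAlg A h0 hadd hup).eval a (ts i)).fst) =
      A.op f (fun i => A.eval (fun x => (a x).fst) (ts i))
    congr 1
    funext i
    exact ih i

theorem blk_compat [WellFoundedLT X] [IsOrderedCancelAddMonoid N] {A : Alg ar X}
    {R : Set (Term ar ℕ × Term ar ℕ)} (hA : A.Compat R)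
    (h0 : ∀ x, P x 0) (hadd : ∀ x m n, P x m → P x n → P x (m + n))
    (hup : ∀ x y m, x ≤ y → P x m → P y m) : (blkAlg A h0 hadd hup).Compat R := by
  intro p hp a
  rw [Blk.lt_iff, blk_eval, blk_eval]
  exact Or.inl (hA p hp _)

end block

/-! ### Rank functions on countable linear orders without a maximum -/

theorem exists_rank (X : Type) [LinearOrder X] [Countable X] [Nonempty X] [NoMaxOrder X] :
    ∃ r : X → ℕ, Monotone r ∧ ∀ n, ∃ x, n ≤ r x := by
  classical
  obtain ⟨e, he⟩ := exists_surjective_nat X
  have hex : ∀ x, ∃ n, x ≤ e n := fun x => by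
    obtain ⟨n, rfl⟩ := he x
    exact ⟨n, le_rfl⟩
  refine ⟨fun x => Nat.find (hex x), ?_, ?_⟩
  · intro x y hxy
    exact Nat.find_min' (hex x) (hxy.trans (Nat.find_spec (hex y)))
  · intro n
    have h1 : ∃ x, ∀ m, m < n → e m < x := by
      induction n with
      | zero => exact ⟨Classical.arbitrary X, fun m hm => absurd hm (Nat.not_lt_zero m)⟩
      | succ n ih =>
        obtain ⟨x, hx⟩ := ih
        obtain ⟨y, hy⟩ := exists_gt (max x (e n))
        refine ⟨y, fun m hm => ?_⟩
        rcases Nat.lt_succ_iff_lt_or_eq.1 hm with h | rfl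
        · exact (hx m h).trans ((le_max_left _ _).trans_lt hy)
        · exact (le_max_right _ _).trans_lt hy
    obtain ⟨x, hx⟩ := h1
    refine ⟨x, ?_⟩
    by_contra hcon
    push Not at hcon
    exact absurd (hx _ hcon) (not_lt.2 (Nat.find_spec (hex x)))

end Q224.TT
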