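import Pool.Agent.Q224.TT.Res

/-!
# Project TT (helper35), part 2, job CLA (helper224)
-/

set_option autoImplicit false

open MvPolynomial

namespace Pool.Agent.Q224.TT

open Pool.Agent.Q35.TT

section

variable {K : Type} [Field K] {n : ℕ}

theorem degreeOf_pderiv_le (f : MvPolynomial (Fin n) K) (k j : Fin n) :
    (pderiv k f).degreeOf j ≤ f.degreeOf j := by
  classical
  rw [MvPolynomial.degreeOf_le_iff]
  intro m hm
  rw [MvPolynomial.mem_support_iff, MvPolynomial.coeff_pderiv] at hm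
  have h1 : f.coeff (m + Finsupp.single k 1) ≠ 0 := left_ne_zero_of_mul hm
  have h2 : (m + Finsupp.single k 1 : Fin n →₀ ℕ) j ≤ f.degreeOf j :=
    MvPolynomial.monomial_le_degreeOf j (MvPolynomial.mem_support_iff.2 h1)
  rw [Finsupp.add_apply] at h2
  exact le_trans (Nat.le_add_right _ _) h2

/-- near points on the plane -/
def Near {L : Type} [NontriviallyNormedField L] (σ : K →+* L) (f : MvPolynomial (Fin n) K) (J : Finset (Fin n))
    (z : Fin n → K) (w : K) (ε : ℝ) (z' : Fin n → K) (w' : K) : Prop :=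
  w' ^ 2 = eval z' f ∧ OnPl J z z' ∧ (∀ k, ‖σ (z' k) - σ (z k)‖ < ε) ∧ ‖σ w' - σ w‖ < ε

theorem Near.mono {L : Type} [NontriviallyNormedField L] {σ : K →+* L} {f : MvPolynomial (Fin n) K}
    {J : Finset (Fin n)} {z : Fin n → K} {w : K} {ε ε' : ℝ} {z' : Fin n → K} {w' : K} (h : Near σ f J z w ε z' w')
    (hε : ε ≤ ε') : Near σ f J z w ε' z' w' :=
  ⟨h.1, h.2.1, fun k => lt_of_lt_of_le (h.2.2.1 k) hε, lt_of_lt_of_le h.2.2.2 hε⟩

/-- a smaller neighbourhood of a near point -/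
theorem Near.shrink {L : Type} [NontriviallyNormedField L] {σ : K →+* L} {f : MvPolynomial (Fin n) K}
    {J : Finset (Fin n)} {z : Fin n → K} {w : K} {ε : ℝ} {z' : Fin n → K} {w' : K} (h : Near σ f J z w ε z' w') :
    ∃ δ : ℝ, 0 < δ ∧ ∀ (J' : Finset (Fin n)) (z'' : Fin n → K) (w'' : K), J' ⊆ J → Near σ f J' z' w' δ z'' w'' →
      Near σ f J z w ε z'' w'' := by
  have h1 : ∀ k, ∃ δ : ℝ, 0 < δ ∧ ‖σ (z' k) - σ (z k)‖ + δ ≤ ε := fun k =>
    ⟨ε - ‖σ (z' k) - σ (z k)‖, by linarith [h.2.2.1 k], by linarith⟩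
  choose δ hδ hδ1 using h1
  obtain ⟨δ0, hδ0, hδ2⟩ : ∃ δ0 : ℝ, 0 < δ0 ∧ ∀ k, δ0 ≤ δ k := by
    by_cases hn : Nonempty (Fin n)
    · obtain ⟨k0, hk0⟩ := Finite.exists_min δ
      exact ⟨δ k0, hδ k0, hk0⟩
    · exact ⟨1, one_pos, fun k => absurd ⟨k⟩ hn⟩
  refine ⟨min δ0 (ε - ‖σ w' - σ w‖), lt_min hδ0 (by linarith [h.2.2.2]), ?_⟩
  intro J' z'' w'' hJ h2
  refine ⟨h2.1, on_trans hJ h.2.1 h2.2.1, fun k => ?_, ?_⟩
  · have h3 := lt_of_lt_of_le (h2.2.2.1 k) (min_le_left _ _)
    have h4 : σ (z'' k) - σ (z k) = (σ (z'' k) - σ (z' k)) + (σ (z' k) - σ (z k)) := by ring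
    rw [h4]
    have h5 := norm_add_le (σ (z'' k) - σ (z' k)) (σ (z' k) - σ (z k))
    have h6 := hδ1 k
    have h7 := hδ2 k
    linarith
  · have h3 := lt_of_lt_of_le h2.2.2.2 (min_le_right _ _)
    have h4 : σ w'' - σ w = (σ w'' - σ w') + (σ w' - σ w) := by ring
    rw [h4]
    have h5 := norm_add_le (σ w'' - σ w') (σ w' - σ w)
    linarith

theorem full_near {L : Type} [NontriviallyNormedField L] {σ : K →+* L} {f : MvPolynomial (Fin n) K}
    {J : Finset (Fin n)} {z : Fin n → K} {w : K} (h : Full σ f J z w) {ε : ℝ} (hε : 0 < ε)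
    {g : MvPolynomial (Fin n) K} (hg : ∃ y, OnPl J z y ∧ eval y g ≠ 0) :
    ∃ z' w', Near σ f J z w ε z' w' ∧ eval z' g ≠ 0 := by
  obtain ⟨z', w', h1, h2, h3, h4, h5⟩ := h ε hε g hg
  exact ⟨z', w', ⟨h1, h2, h3, h4⟩, h5⟩

/-- `i` is good: near points off a divisor are torsion in the direction `i` -/
def Good {L : Type} [NontriviallyNormedField L] (σ : K →+* L) (f : MvPolynomial (Fin n) K) (J : Finset (Fin n))
    (z : Fin n → K) (w : K) (i : Fin n) : Prop :=
  ∃ ε : ℝ, 0 < ε ∧ ∃ g : MvPolynomial (Fin n) K, (∃ y, OnPl J z y ∧ eval y g ≠ 0) ∧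
    ∀ z' w', Near σ f J z w ε z' w' → eval z' g ≠ 0 → w' ≠ 0 → TorN f z' i

end

theorem cla (h1 : S_TAN) (h2 : S_TBN) (h3 : S_MOV) (h4 : S_TRS) (h5 : S_CLO) (h6 : S_SQF) : S_CLA := by
  classical
  intro K _ _ L _ _ σ hσ n f hf hsm hfin z w hw hwz hi0
  have hz : eval z f ≠ 0 := by
    rw [← hwz]
    exact pow_ne_zero 2 hw
  haveI : Infinite K := CharZero.infinite K
  -- a maximal `J`
  obtain ⟨i0, hi0⟩ := hi0
  have hfull0 := h3 K L σ hσ n f hf z w i0 hw hwz hi0
  obtain ⟨J, hJmem, hJmax⟩ := Finset.exists_max_image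
    (Finset.univ.filter (fun J : Finset (Fin n) => J.Nonempty ∧ Full σ f J z w)) Finset.card
    ⟨{i0}, Finset.mem_filter.2 ⟨Finset.mem_univ _, Finset.singleton_nonempty _, hfull0⟩⟩
  obtain ⟨-, hJne, hJfull⟩ := Finset.mem_filter.1 hJmem
  have hgood : ∀ k, k ∉ J → Good σ f J z w k := by
    intro k hk
    have hnot : ¬ Full σ f (insert k J) z w := by
      intro hF
      have h7 := hJmax (insert k J) (Finset.mem_filter.2 ⟨Finset.mem_univ _, Finset.insert_nonempty _ _, hF⟩)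
      rw [Finset.card_insert_of_notMem hk] at h7
      omega
    by_contra hG
    apply hnot
    apply h4
    intro ε hε g hg
    unfold Good at hG
    push Not at hG
    obtain ⟨z', w', hn1, hn2, hn3, hn4⟩ := hG ε hε g hg
    refine ⟨z', w', hn1.1, hn1.2.1, hn1.2.2.1, hn1.2.2.2, hn2, ?_⟩
    exact h3 K L σ hσ n f hf z' w' k hn3 hn1.1 hn4
  -- the other directions
  set J' : Finset (Fin n) := Finset.univ.filter (fun i => ¬ Good σ f J z w i) with hJ'
  have hJ'J : J' ⊆ J := by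
    intro i hi
    by_contra hiJ
    exact (Finset.mem_filter.1 hi).2 (hgood i hiJ)
  have hgood' : ∀ k, k ∉ J' → Good σ f J z w k := by
    intro k hk
    by_contra hG
    exact hk (Finset.mem_filter.2 ⟨Finset.mem_univ _, hG⟩)
  have hchoose : ∀ k, ∃ (ε : ℝ) (g : MvPolynomial (Fin n) K), 0 < ε ∧ (∃ y, OnPl J z y ∧ eval y g ≠ 0) ∧
      (k ∉ J' → ∀ z' w', Near σ f J z w ε z' w' → eval z' g ≠ 0 → w' ≠ 0 → TorN f z' k) := by
    intro k
    by_cases hk : k ∈ J'
    · exact ⟨1, 1, one_pos, ⟨z, on_refl J z, by simp⟩, fun h => absurd hk h⟩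
    · obtain ⟨ε, hε, g, hg, h⟩ := hgood' k hk
      exact ⟨ε, g, hε, hg, fun _ => h⟩
  choose ε' g' hε' hg' htor' using hchoose
  obtain ⟨ε, hε, hε1⟩ : ∃ ε : ℝ, 0 < ε ∧ ∀ k, ε ≤ ε' k := by
    haveI : Nonempty (Fin n) := ⟨i0⟩
    obtain ⟨k0, hk0⟩ := Finite.exists_min ε'
    exact ⟨ε' k0, hε' k0, hk0⟩
  set g : MvPolynomial (Fin n) K := f * ∏ k : Fin n, g' k with hgdef
  have hgnv : ∃ y, OnPl J z y ∧ eval y g ≠ 0 :=
    nv_mul ⟨z, on_refl J z, hz⟩ (nv_prod Finset.univ g' (fun k _ => hg' k))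
  have htor : ∀ z' w', Near σ f J z w ε z' w' → eval z' g ≠ 0 → w' ≠ 0 ∧ ∀ k, k ∉ J' → TorN f z' k := by
    intro z' w' hn hg0
    rw [hgdef, map_mul, map_prod] at hg0
    have hf0 : eval z' f ≠ 0 := left_ne_zero_of_mul hg0
    have hp0 := right_ne_zero_of_mul hg0
    rw [Finset.prod_ne_zero_iff] at hp0
    have hw0 : w' ≠ 0 := by
      rintro rfl
      apply hf0
      rw [← hn.1]
      simp
    exact ⟨hw0, fun k hk => htor' k hk z' w' (hn.mono (hε1 k)) (hp0 k (Finset.mem_univ k)) hw0⟩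
  -- `J'` is not empty
  have hJ'ne : J'.Nonempty := by
    by_contra hempty
    rw [Finset.not_nonempty_iff_eq_empty] at hempty
    have hT := h1 K n f hf hsm
    obtain ⟨i1, hi1⟩ := hJne
    obtain ⟨z', w', hn, hn2⟩ := full_near hJfull hε
      (nv_mul hgnv (nv_prod hT.toFinset (fun t => X i1 - C (t i1)) (fun t _ => nv_lin hi1 (t i1))))
    rw [map_mul, map_prod] at hn2
    have hmem : z' ∈ hT.toFinset := by
      rw [Set.Finite.mem_toFinset]
      intro i
      exact (htor z' w' hn (left_ne_zero_of_mul hn2)).2 i (by rw [hempty]; simp)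
    have h8 := right_ne_zero_of_mul hn2
    rw [Finset.prod_ne_zero_iff] at h8
    apply h8 z' hmem
    simp
  -- the lines are special
  have hline : ∀ i ∈ J', ∀ k, k ∉ J' → ∀ y, OnPl J z y → eval y f ≠ 0 →
      ¬ ND (lc f (af y) i) (lc (pderiv k f) (af y) i) := by
    intro i hi k hk
    have hik : i ≠ k := fun h => hk (h ▸ hi)
    refine h5 K n f (pderiv k f) hf (fun j => (degreeOf_pderiv_le f k j).trans (hf j)) J z i
      {z' | ∃ w', Near σ f J z w ε z' w' ∧ eval z' g ≠ 0 ∧ ¬ TorN f z' i} ?_ ?_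
    · intro q hq
      have hnG : ¬ Good σ f J z w i := (Finset.mem_filter.1 hi).2
      unfold Good at hnG
      push Not at hnG
      obtain ⟨z', w', hn1, hn2, hn3, hn4⟩ := hnG ε hε (g * q) (nv_mul hgnv hq)
      rw [map_mul] at hn2
      exact ⟨z', ⟨w', hn1, left_ne_zero_of_mul hn2, hn4⟩, hn1.2.1, right_ne_zero_of_mul hn2⟩
    · rintro z' ⟨w', hn, hg0, hnt⟩ hon hND
      have hTB := h2 K n f hf z' i k hik hND
      obtain ⟨hw', -⟩ := htor z' w' hn hg0
      have hF := h3 K L σ hσ n f hf z' w' i hw' hn.1 hnt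
      obtain ⟨δ, hδ, hδ1⟩ := hn.shrink
      obtain ⟨z'', w'', hn', hn2'⟩ := full_near hF hδ (nv_mul (g := g) ⟨z', on_refl _ z', hg0⟩
        (nv_prod hTB.toFinset (fun t => X i - C t) (fun t _ => nv_lin (Finset.mem_singleton_self i) t)))
      rw [map_mul, map_prod] at hn2'
      have hnear := hδ1 {i} z'' w'' (Finset.singleton_subset_iff.2 (hJ'J hi)) hn'
      have htk := (htor z'' w'' hnear (left_ne_zero_of_mul hn2')).2 k hk
      have hupd : z'' = Function.update z' i (z'' i) := by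
        funext l
        by_cases hl : l = i
        · rw [hl, Function.update_self]
        · rw [Function.update_of_ne hl]
          exact hn'.2.1 l (by simpa using hl)
      have h8 := right_ne_zero_of_mul hn2'
      rw [Finset.prod_ne_zero_iff] at h8
      apply h8 (z'' i)
      · rw [Set.Finite.mem_toFinset]
        change TorN f (Function.update z' i (z'' i)) k
        rw [← hupd]
        exact htk
      · simp
  have hspec : ∀ y, OnPl J z y → eval y f ≠ 0 → SpecN f y J' := by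
    intro y hy hy0
    refine h6 K n f hf hsm J' y hJ'ne hy0 ?_
    intro i hi k hk y' hy' hy'0
    exact hline i hi k hk y' (on_trans hJ'J hy hy') hy'0
  -- `J' = J`
  have hJJ : J' = J := by
    by_contra hne
    obtain ⟨j, hj, hj'⟩ := Finset.exists_of_ssubset (lt_of_le_of_ne hJ'J hne)
    have hJ'u : J' ≠ Finset.univ := fun h => hj' (by rw [h]; exact Finset.mem_univ j)
    have hfinite := hfin J' hJ'ne hJ'u
    have hinf := fin_zero z j f hz
    apply hinf
    have hmaps : Set.MapsTo (fun t : K => {y | OnPl J' (Function.update z j t) y})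
        {t : K | eval (Function.update z j t) f ≠ 0}
        {P : Set (Fin n → K) | ∃ z, eval z f ≠ 0 ∧ SpecN f z J' ∧ P = {y | OnPl J' z y}} := by
      intro t ht
      exact ⟨Function.update z j t, ht, hspec _ (on_update J z hj t) ht, rfl⟩
    refine Set.Finite.of_injOn hmaps ?_ hfinite
    intro t _ t' _ htt
    have h9 : Function.update z j t ∈ {y | OnPl J' (Function.update z j t') y} := by
      have h10 : Function.update z j t ∈ {y | OnPl J' (Function.update z j t) y} := on_refl _ _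
      have h11 : {y | OnPl J' (Function.update z j t) y} = {y | OnPl J' (Function.update z j t') y} := htt
      rw [h11] at h10
      exact h10
    have h12 : (Function.update z j t) j = (Function.update z j t') j := h9 j hj'
    rw [Function.update_self, Function.update_self] at h12
    exact h12
  refine ⟨J, hJne, hJfull, ?_⟩
  have h13 := hspec z (on_refl J z) hz
  rw [hJJ] at h13
  exact h13

end Pool.Agent.Q224.TT
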