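import Mathlib

/-!
# Term rewrite systems and total termination
-/

set_option autoImplicit false

namespace Q224.TT

/-- Terms over a signature: `S` is the type of function symbols, `ar f` the arity of `f`, `V` the
type of variables. -/
inductive Term {S : Type} (ar : S → ℕ) (V : Type) : Type
  | var (x : V) : Term ar V
  | app (f : S) (ts : Fin (ar f) → Term ar V) : Term ar V

/-- Ground terms over a signature.  The fresh constant `fresh` is available only if the signature
has no constant. -/
inductive Ground {S : Type} (ar : S → ℕ) : Type
  | app (f : S) (ts : Fin (ar f) → Ground ar) : Ground ar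
  | fresh (h : ∀ f, ar f ≠ 0) : Ground ar

variable {S : Type} {ar : S → ℕ}

/-- Application of a ground substitution. -/
def Term.subst {V : Type} (σ : V → Ground ar) : Term ar V → Ground ar
  | .var x => σ x
  | .app f ts => .app f (fun i => (ts i).subst σ)

/-- Replacing an argument by a smaller one makes the term smaller. -/
def Monotonic (gt : Ground ar → Ground ar → Prop) : Prop :=
  ∀ (f : S) (v : Fin (ar f) → Ground ar) (i : Fin (ar f)) (s t : Ground ar), gt s t →
    gt (.app f (Function.update v i s)) (.app f (Function.update v i t))

/-- `R` is totally terminating: there is a monotonic well-ordering of the ground terms with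
`lσ > rσ` for all rules `l → r` and all ground substitutions `σ`. -/
def TotallyTerminating (R : Set (Term ar ℕ × Term ar ℕ)) : Prop :=
  ∃ gt : Ground ar → Ground ar → Prop, IsStrictTotalOrder (Ground ar) gt ∧
    WellFounded (fun s t => gt t s) ∧ Monotonic gt ∧
    ∀ p ∈ R, ∀ σ : ℕ → Ground ar, gt (p.1.subst σ) (p.2.subst σ)

variable {S' : Type} {ar' : S' → ℕ}

/-- A term over the first signature as a term over the disjoint union of the signatures. -/
def Term.inl {V : Type} : Term ar V → Term (Sum.elim ar ar') V
  | .var x => .var x
  | .app f ts => .app (Sum.inl f) (fun i => (ts i).inl)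

/-- A term over the second signature as a term over the disjoint union of the signatures. -/
def Term.inr {V : Type} : Term ar' V → Term (Sum.elim ar ar') V
  | .var x => .var x
  | .app f ts => .app (Sum.inr f) (fun i => (ts i).inr)

/-- The union of two rewrite systems over disjoint signatures. -/
def union (R : Set (Term ar ℕ × Term ar ℕ)) (R' : Set (Term ar' ℕ × Term ar' ℕ)) :
    Set (Term (Sum.elim ar ar') ℕ × Term (Sum.elim ar ar') ℕ) :=
  {p | (∃ q ∈ R, p = (q.1.inl, q.2.inl)) ∨ ∃ q ∈ R', p = (q.1.inr, q.2.inr)}

end Q224.TT
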