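import Pool.Agent.Q224.TT.Typ

/-!
# Modularity of total termination
-/

set_option autoImplicit false

namespace Q224.TT

open Cardinal Ordinal

variable {S : Type} {ar : S → ℕ}

instance : Nonempty (Ground ar) := by
  by_cases h : ∀ f, ar f ≠ 0
  · exact ⟨.fresh h⟩
  · push Not at h
    obtain ⟨f, hf⟩ := h
    exact ⟨.app f (fun i => (Fin.cast hf i).elim0)⟩

theorem step_one {X : Type} [LinearOrder X] [WellFoundedLT X] [Countable X] [Nonempty X]
    (A : Alg ar X) {R : Set (Term ar ℕ × Term ar ℕ)} (hA : A.Compat R) :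
    ∃ (Y : Type) (_ : LinearOrder Y) (_ : WellFoundedLT Y) (_ : Countable Y) (_ : Nonempty Y)
      (_ : NoMaxOrder Y) (B : Alg ar Y), B.Compat R := by
  refine ⟨Blk (fun (_ : X) (_ : ℕ) => True), inferInstance, inferInstance, ?_, ?_, ?_,
    blkAlg A (fun _ => trivial) (fun _ _ _ _ _ => trivial) (fun _ _ _ _ _ => trivial),
    blk_compat hA _ _ _⟩
  · have : Function.Injective (fun p : Blk (fun (_ : X) (_ : ℕ) => True) => (p.fst, p.snd)) := by
      intro p q h
      apply Subtype.ext
      exact h
    exact this.countable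
  · obtain ⟨x⟩ := (inferInstance : Nonempty X)
    exact ⟨Blk.mk x 0 trivial⟩
  · refine ⟨fun p => ⟨Blk.mk p.fst (p.snd + 1) trivial, ?_⟩⟩
    rw [Blk.lt_iff]
    exact Or.inr ⟨rfl, Nat.lt_succ_self _⟩

theorem step_two {X : Type} [LinearOrder X] [WellFoundedLT X] [Countable X] [Nonempty X]
    [NoMaxOrder X] (A : Alg ar X) {R : Set (Term ar ℕ × Term ar ℕ)} (hA : A.Compat R) :
    ∃ (Y : Type) (_ : LinearOrder Y) (_ : WellFoundedLT Y),
      Ordinal.type (fun a b : Y => a < b) = (ℵ_ ω).ord ∧ ∃ B : Alg ar Y, B.Compat R := by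
  obtain ⟨r, hr, hu⟩ := exists_rank X
  exact ⟨Blk (Lev r), inferInstance, inferInstance, type_blk hr hu,
    blkAlg A (lev_zero r) (lev_add r) (lev_up hr), blk_compat hA _ _ _⟩

theorem exists_alg [Countable S] {R : Set (Term ar ℕ × Term ar ℕ)} (h : TotallyTerminating R) :
    ∃ (Y : Type) (_ : LinearOrder Y) (_ : WellFoundedLT Y),
      Ordinal.type (fun a b : Y => a < b) = (ℵ_ ω).ord ∧ ∃ B : Alg ar Y, B.Compat R := by
  classical
  obtain ⟨gt, hgt, hwf, hmono, hR⟩ := h
  let _ : LinearOrder (Ground ar) := linearOrderOfSTO (Function.swap gt)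
  have : WellFoundedLT (Ground ar) := ⟨hwf⟩
  let A : Alg ar (Ground ar) :=
    { op := Ground.app
      mono := fun f v i x y hxy => hmono f v i y x hxy }
  have heval : ∀ (a : ℕ → Ground ar) (t : Term ar ℕ), A.eval a t = t.subst a := by
    intro a t
    induction t with
    | var x => rfl
    | app f ts ih =>
      show Ground.app f (fun i => A.eval a (ts i)) = Ground.app f (fun i => (ts i).subst a)
      congr 1
      funext i
      exact ih i
  have hA : A.Compat R := by
    intro p hp a
    rw [heval, heval]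
    exact hR p hp a
  obtain ⟨Y, _, _, _, _, _, B, hB⟩ := step_one A hA
  exact step_two B hB

/-- Total termination is modular for disjoint unions over countable signatures. -/
theorem main {S' : Type} {ar' : S' → ℕ} [Countable S] [Countable S']
    {R : Set (Term ar ℕ × Term ar ℕ)} {R' : Set (Term ar' ℕ × Term ar' ℕ)}
    (h : TotallyTerminating R) (h' : TotallyTerminating R') :
    TotallyTerminating (union R R') := by
  obtain ⟨Y, _, _, hY, B, hB⟩ := exists_alg h
  obtain ⟨Y', _, _, hY', B', hB'⟩ := exists_alg h'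
  obtain ⟨φ⟩ := Ordinal.type_eq.1 (hY'.trans hY.symm)
  let ψ : Y' ≃o Y := OrderIso.ofRelIsoLT φ
  have hne : Nonempty Y := by
    by_contra hcon
    rw [not_nonempty_iff] at hcon
    have : Ordinal.type (fun a b : Y => a < b) = 0 := Ordinal.type_eq_zero_of_empty _
    rw [hY] at this
    have h2 := congrArg Ordinal.card this
    rw [card_ord, card_zero] at h2
    exact (aleph_pos _).ne' h2
  exact (B.sum (B'.transport ψ)).totallyTerminating
    (Alg.sum_compat hB (Alg.transport_compat hB' ψ))

end Q224.TT
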