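import Pool.Agent.Q224.TT.Res

/-!
# Project TT (helper35), part 2: singular points of the branch divisor (helper224)
-/

set_option autoImplicit false

open MvPolynomial

namespace Pool.Agent.Q224.TT

open Pool.Agent.Q35.TT

section ring

variable {A : Type} [Field A] {n : ℕ}

open Classical in
/-- a polynomial as a polynomial in the variable `X i` -/
noncomputable def Lam (i : Fin n) : MvPolynomial (Fin n) A →+* Polynomial (MvPolynomial (Fin n) A) :=
  eval₂Hom (Polynomial.C.comp C) (fun l => if l = i then Polynomial.X else Polynomial.C (X l))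

theorem Lam_C (i : Fin n) (a : A) : Lam i (C a : MvPolynomial (Fin n) A) = Polynomial.C (C a) := by
  unfold Lam
  rw [eval₂Hom_C]
  rfl

theorem Lam_X (i : Fin n) : Lam i (X i : MvPolynomial (Fin n) A) = Polynomial.X := by
  unfold Lam
  rw [eval₂Hom_X', if_pos rfl]

theorem Lam_X' (i : Fin n) {l : Fin n} (h : l ≠ i) : Lam i (X l : MvPolynomial (Fin n) A) = Polynomial.C (X l) := by
  unfold Lam
  rw [eval₂Hom_X', if_neg h]

theorem eval_Lam (i : Fin n) (f : MvPolynomial (Fin n) A) : (Lam i f).eval (X i) = f := by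
  have h : (Polynomial.evalRingHom (X i)).comp (Lam i) = RingHom.id (MvPolynomial (Fin n) A) := by
    apply MvPolynomial.ringHom_ext
    · intro a
      rw [RingHom.comp_apply, Lam_C]
      simp
    · intro l
      rw [RingHom.comp_apply]
      by_cases hl : l = i
      · rw [hl, Lam_X]
        simp
      · rw [Lam_X' i hl]
        simp
  exact RingHom.congr_fun h f

theorem Lam_inj (i : Fin n) : Function.Injective (Lam i : MvPolynomial (Fin n) A →+* _) := by
  intro f g h
  rw [← eval_Lam i f, ← eval_Lam i g, h]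

theorem map_Lam (y : Fin n → A) (i : Fin n) (f : MvPolynomial (Fin n) A) : (Lam i f).map (eval y) = lin y i f := by
  have h : (Polynomial.mapRingHom (eval y)).comp (Lam i) =
      ((aeval (fun l => if l = i then Polynomial.X else Polynomial.C (y l)) : MvPolynomial (Fin n) A →ₐ[A] _) :
        MvPolynomial (Fin n) A →+* Polynomial A) := by
    apply MvPolynomial.ringHom_ext
    · intro a
      rw [RingHom.comp_apply, Lam_C]
      simp
    · intro l
      rw [RingHom.comp_apply]
      by_cases hl : l = i
      · rw [hl, Lam_X]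
        simp
      · rw [Lam_X' i hl]
        simp [hl]
  exact RingHom.congr_fun h f

theorem coeff_lin (y : Fin n → A) (i : Fin n) (f : MvPolynomial (Fin n) A) (k : ℕ) :
    (lin y i f).coeff k = eval y ((Lam i f).coeff k) := by
  rw [← map_Lam, Polynomial.coeff_map]

theorem lin_eq_sum (y : Fin n → A) (i : Fin n) (f : MvPolynomial (Fin n) A) :
    lin y i f = ∑ m ∈ f.support, Polynomial.C (f.coeff m * ∏ j ∈ Finset.univ.erase i, y j ^ m j) *
      Polynomial.X ^ m i := by
  unfold lin
  rw [aeval_def, eval₂_eq']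
  refine Finset.sum_congr rfl fun m _ => ?_
  rw [← Finset.mul_prod_erase Finset.univ _ (Finset.mem_univ i), if_pos rfl, Polynomial.algebraMap_eq,
    Polynomial.C_mul, map_prod]
  have h : ∏ x ∈ Finset.univ.erase i, (if x = i then Polynomial.X else Polynomial.C (y x)) ^ m x =
      ∏ x ∈ Finset.univ.erase i, Polynomial.C (y x ^ m x) := by
    refine Finset.prod_congr rfl fun x hx => ?_
    rw [if_neg (Finset.ne_of_mem_erase hx), Polynomial.C_pow]
  rw [h]
  ring

theorem lin_coeff_sum (y : Fin n → A) (i : Fin n) (f : MvPolynomial (Fin n) A) (k : ℕ) :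
    (lin y i f).coeff k = ∑ m ∈ f.support with m i = k, f.coeff m * ∏ j ∈ Finset.univ.erase i, y j ^ m j := by
  rw [lin_eq_sum, Polynomial.finsetSum_coeff, Finset.sum_filter]
  refine Finset.sum_congr rfl fun m _ => ?_
  rw [Polynomial.coeff_C_mul_X_pow]
  by_cases h : m i = k
  · rw [if_pos h, if_pos h.symm]
  · rw [if_neg h, if_neg (Ne.symm h)]

theorem mo_af (m : Fin n →₀ ℕ) (y : Fin n → A) (i : Fin n) :
    mo m (af y) i = ∏ j ∈ Finset.univ.erase i, y j ^ m j := by
  unfold mo af
  refine Finset.prod_congr rfl fun j _ => ?_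
  simp

theorem lc_af (f : MvPolynomial (Fin n) A) (y : Fin n → A) (i : Fin n) (k : Fin 5) :
    lc f (af y) i k = (lin y i f).coeff k := by
  rw [lin_coeff_sum]
  unfold lc
  refine Finset.sum_congr rfl fun m _ => ?_
  rw [mo_af]

theorem natDegree_lin (y : Fin n → A) (i : Fin n) (f : MvPolynomial (Fin n) A) (hf : f.degreeOf i ≤ 4) :
    (lin y i f).natDegree ≤ 4 := by
  rw [lin_eq_sum]
  refine Polynomial.natDegree_sum_le_of_forall_le _ _ fun m hm => ?_
  refine (Polynomial.natDegree_C_mul_X_pow_le _ _).trans ?_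
  exact (monomial_le_degreeOf i hm).trans hf

theorem pq_coeff (a : Fin 5 → A) (k : ℕ) : (pq a).coeff k = if h : k < 5 then a ⟨k, h⟩ else 0 := by
  unfold pq
  rw [Polynomial.finsetSum_coeff]
  by_cases h : k < 5
  · rw [dif_pos h, Finset.sum_eq_single ⟨k, h⟩]
    · rw [Polynomial.coeff_C_mul_X_pow, if_pos rfl]
    · intro b _ hb
      rw [Polynomial.coeff_C_mul_X_pow, if_neg]
      intro hk
      exact hb (Fin.ext hk.symm)
    · intro h1
      exact absurd (Finset.mem_univ _) h1
  · rw [dif_neg h]
    refine Finset.sum_eq_zero fun b _ => ?_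
    rw [Polynomial.coeff_C_mul_X_pow, if_neg]
    intro hk
    exact h (hk ▸ b.2)

theorem pq_lin (a : Fin 5 → A) (P : Polynomial A) (hP : P.natDegree ≤ 4) (h : ∀ k : Fin 5, a k = P.coeff k) :
    pq a = P := by
  ext k
  rw [pq_coeff]
  by_cases hk : k < 5
  · rw [dif_pos hk, h]
  · rw [dif_neg hk, Polynomial.coeff_eq_zero_of_natDegree_lt]
    omega

theorem pq_lc (f : MvPolynomial (Fin n) A) (y : Fin n → A) (i : Fin n) (hf : f.degreeOf i ≤ 4) :
    pq (lc f (af y) i) = lin y i f :=
  pq_lin _ _ (natDegree_lin y i f hf) fun k => lc_af f y i k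

theorem bq_pq (a : Fin 5 → A) (t : A) : bq a ![1, t] = (pq a).eval t := by
  unfold bq pq
  rw [Polynomial.eval_finsetSum]
  simp [Fin.sum_univ_five]

theorem bd_pq (a : Fin 5 → A) (t : A) : bd a ![1, t] 1 = (Polynomial.derivative (pq a)).eval t := by
  unfold bd pq
  rw [Polynomial.derivative_sum, Polynomial.eval_finsetSum]
  simp [Fin.sum_univ_five]
  ring

theorem bd_euler (a : Fin 5 → A) (x : Fin 2 → A) : x 0 * bd a x 0 + x 1 * bd a x 1 = 4 * bq a x := by
  simp only [bd, bq, Matrix.cons_val_zero, Matrix.cons_val_one]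
  ring

theorem derivative_lin (y : Fin n → A) (i : Fin n) (f : MvPolynomial (Fin n) A) :
    Polynomial.derivative (lin y i f) = lin y i (pderiv i f) := by
  unfold lin
  induction f using MvPolynomial.induction_on with
  | C a =>
    rw [pderiv_C, map_zero, algHom_C, Polynomial.algebraMap_eq, Polynomial.derivative_C]
  | add p q hp hq => rw [map_add, map_add, map_add, map_add, hp, hq]
  | mul_X p j hp =>
    rw [map_mul, aeval_X, Polynomial.derivative_mul, hp, Derivation.leibniz, map_add, smul_eq_mul, smul_eq_mul,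
      map_mul, map_mul, aeval_X]
    by_cases hj : j = i
    · rw [if_pos hj, hj, pderiv_X_self, Polynomial.derivative_X, map_one]
      ring
    · rw [if_neg hj, pderiv_X_of_ne (fun h => hj h), Polynomial.derivative_C, map_zero]
      ring

/-- the partial derivatives in the other directions do not see the variable `X i` -/
theorem pderiv_coeff_Lam {i l : Fin n} (h : l ≠ i) (f : MvPolynomial (Fin n) A) (k : ℕ) :
    pderiv l ((Lam i f).coeff k) = (Lam i (pderiv l f)).coeff k := by
  induction f using MvPolynomial.induction_on generalizing k with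
  | C a =>
    rw [pderiv_C, map_zero, Lam_C, Polynomial.coeff_C, Polynomial.coeff_zero]
    split_ifs <;> simp
  | add p q hp hq =>
    rw [map_add, map_add, Polynomial.coeff_add, map_add, map_add, Polynomial.coeff_add, hp, hq]
  | mul_X p j hp =>
    rw [map_mul, Derivation.leibniz, map_add, smul_eq_mul, smul_eq_mul, map_mul, map_mul]
    by_cases hj : j = i
    · rw [hj, Lam_X, pderiv_X_of_ne (fun h' => h h'.symm), map_zero, mul_zero, zero_add]
      cases k with
      | zero => rw [Polynomial.coeff_mul_X_zero, Polynomial.coeff_X_mul_zero, map_zero]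
      | succ k => rw [Polynomial.coeff_mul_X, hp, Polynomial.coeff_X_mul]
    · rw [Lam_X' i hj, Polynomial.coeff_mul_C, Derivation.leibniz, hp, Polynomial.coeff_add, Polynomial.coeff_C_mul,
        smul_eq_mul, smul_eq_mul]
      congr 1
      by_cases hjl : j = l
      · rw [hjl, pderiv_X_self, map_one, mul_one, mul_one]
      · rw [pderiv_X_of_ne (fun h' => hjl h'), map_zero, mul_zero, mul_zero, Polynomial.coeff_zero]

/-- an affine singular point -/
theorem sing_aff (f : MvPolynomial (Fin n) A) (hf : ∀ j, f.degreeOf j ≤ 4) (y : Fin n → A) (h0 : eval y f = 0)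
    (h1 : ∀ l, eval y (pderiv l f) = 0) (l : Fin n) (k : Fin 2) : bd (lc f (af y) l) (af y l) k = 0 := by
  have e1 : bd (lc f (af y) l) ![1, y l] 1 = 0 := by
    rw [bd_pq, pq_lc f y l (hf l), derivative_lin, eval_lin, Function.update_eq_self, h1]
  have e0 : bq (lc f (af y) l) ![1, y l] = 0 := by
    rw [bq_pq, pq_lc f y l (hf l), eval_lin, Function.update_eq_self, h0]
  have e2 := bd_euler (lc f (af y) l) ![1, y l]
  rw [e1, e0] at e2
  simp only [Matrix.cons_val_zero, Matrix.cons_val_one, one_mul, mul_zero, add_zero] at e2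
  unfold af
  fin_cases k
  · exact e2
  · exact e1

/-- the point at infinity of the line in the direction `i` -/
def inf (y : Fin n → A) (i : Fin n) : Fin n → Fin 2 → A := Function.update (af y) i ![0, 1]

theorem lc_inf_self (f : MvPolynomial (Fin n) A) (y : Fin n → A) (i : Fin n) : lc f (inf y i) i = lc f (af y) i := by
  funext k
  unfold lc
  refine Finset.sum_congr rfl fun m _ => ?_
  congr 1
  unfold mo
  refine Finset.prod_congr rfl fun j hj => ?_
  unfold inf
  rw [Function.update_of_ne (Finset.ne_of_mem_erase hj)]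

theorem coeff_Lam_sum (i : Fin n) (f : MvPolynomial (Fin n) A) (k : ℕ) :
    (Lam i f).coeff k = ∑ m ∈ f.support with m i = k, C (f.coeff m) * ∏ j ∈ Finset.univ.erase i, X j ^ m j := by
  have h1 : Lam i f = ∑ m ∈ f.support, Polynomial.C (C (f.coeff m) * ∏ j ∈ Finset.univ.erase i, X j ^ m j) *
      Polynomial.X ^ m i := by
    unfold Lam
    rw [coe_eval₂Hom, eval₂_eq']
    refine Finset.sum_congr rfl fun m _ => ?_
    rw [← Finset.mul_prod_erase Finset.univ _ (Finset.mem_univ i), if_pos rfl, RingHom.comp_apply,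
      Polynomial.C_mul, map_prod]
    have h : ∏ x ∈ Finset.univ.erase i, (if x = i then Polynomial.X else Polynomial.C (X x)) ^ m x =
        ∏ x ∈ Finset.univ.erase i, Polynomial.C ((X x : MvPolynomial (Fin n) A) ^ m x) := by
      refine Finset.prod_congr rfl fun x hx => ?_
      rw [if_neg (Finset.ne_of_mem_erase hx), Polynomial.C_pow]
    rw [h]
    ring
  rw [h1, Polynomial.finsetSum_coeff, Finset.sum_filter]
  refine Finset.sum_congr rfl fun m _ => ?_
  rw [Polynomial.coeff_C_mul_X_pow]
  by_cases h : m i = k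
  · rw [if_pos h, if_pos h.symm]
  · rw [if_neg h, if_neg (Ne.symm h)]

/-- the other directions at the point at infinity -/
theorem pq_lc_inf (f : MvPolynomial (Fin n) A) (hf : ∀ j, f.degreeOf j ≤ 4) (y : Fin n → A) {i l : Fin n}
    (hl : l ≠ i) : pq (lc f (inf y i) l) = lin y l ((Lam i f).coeff 4) := by
  have key : lin y l ((Lam i f).coeff 4) = ∑ m ∈ f.support with m i = 4,
      Polynomial.C (f.coeff m * ∏ j ∈ (Finset.univ.erase l).erase i, y j ^ m j) * Polynomial.X ^ m l := by
    rw [coeff_Lam_sum]
    unfold lin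
    rw [map_sum]
    refine Finset.sum_congr rfl fun m _ => ?_
    rw [map_mul, map_prod, algHom_C, Polynomial.algebraMap_eq]
    have h1 : l ∈ Finset.univ.erase i := Finset.mem_erase.2 ⟨hl, Finset.mem_univ _⟩
    rw [← Finset.mul_prod_erase _ _ h1, map_pow, aeval_X, if_pos rfl, Polynomial.C_mul, map_prod]
    have h : ∏ x ∈ (Finset.univ.erase i).erase l, (aeval fun l' => if l' = l then Polynomial.X else
        Polynomial.C (y l')) ((X x : MvPolynomial (Fin n) A) ^ m x) =
        ∏ x ∈ (Finset.univ.erase l).erase i, Polynomial.C (y x ^ m x) := by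
      rw [Finset.erase_right_comm]
      refine Finset.prod_congr rfl fun x hx => ?_
      have hxl : x ≠ l := Finset.ne_of_mem_erase (Finset.mem_of_mem_erase hx)
      rw [map_pow, aeval_X, if_neg hxl, Polynomial.C_pow]
    rw [h]
    ring
  apply pq_lin
  · rw [key]
    refine Polynomial.natDegree_sum_le_of_forall_le _ _ fun m hm => ?_
    refine (Polynomial.natDegree_C_mul_X_pow_le _ _).trans ?_
    exact (monomial_le_degreeOf l (Finset.mem_filter.1 hm).1).trans (hf l)
  · intro k
    rw [key, Polynomial.finsetSum_coeff]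
    unfold lc
    rw [Finset.sum_filter, Finset.sum_filter]
    refine Finset.sum_congr rfl fun m hm => ?_
    have hm4 : m i ≤ 4 := (monomial_le_degreeOf i hm).trans (hf i)
    rw [Polynomial.coeff_C_mul_X_pow]
    have h1 : i ∈ Finset.univ.erase l := Finset.mem_erase.2 ⟨hl.symm, Finset.mem_univ _⟩
    have h2 : mo m (inf y i) l = 0 ^ (4 - m i) * ∏ j ∈ (Finset.univ.erase l).erase i, y j ^ m j := by
      unfold mo
      rw [← Finset.mul_prod_erase _ _ h1]
      congr 1
      · unfold inf
        rw [Function.update_self]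
        simp
      · refine Finset.prod_congr rfl fun x hx => ?_
        unfold inf af
        rw [Function.update_of_ne (Finset.ne_of_mem_erase hx)]
        simp
    rw [h2]
    by_cases h4 : m i = 4
    · rw [if_pos h4, h4]
      by_cases hk : m l = (k : ℕ)
      · rw [if_pos hk, if_pos hk.symm]
        simp
      · rw [if_neg hk, if_neg (Ne.symm hk)]
    · rw [if_neg h4]
      have h5 : 4 - m i ≠ 0 := by omega
      rw [zero_pow h5]
      simp

/-- a singular point at infinity -/
theorem sing_inf (f : MvPolynomial (Fin n) A) (hf : ∀ j, f.degreeOf j ≤ 4) (y : Fin n → A) (i : Fin n)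
    (h3 : (lin y i f).coeff 3 = 0) (h4 : (lin y i f).coeff 4 = 0)
    (h5 : ∀ l, l ≠ i → (lin y i (pderiv l f)).coeff 4 = 0) (l : Fin n) (k : Fin 2) :
    bd (lc f (inf y i) l) (inf y i l) k = 0 := by
  by_cases hl : l = i
  · rw [hl, lc_inf_self]
    have e3 : lc f (af y) i 3 = 0 := by
      rw [lc_af]
      exact h3
    have e4 : lc f (af y) i 4 = 0 := by
      rw [lc_af]
      exact h4
    have e : inf y i i = ![0, 1] := by
      unfold inf
      rw [Function.update_self]
    rw [e]
    unfold bd
    fin_cases k <;> simp [e3, e4]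
  · have e : inf y i l = ![1, y l] := by
      unfold inf af
      rw [Function.update_of_ne hl]
    have e1 : bd (lc f (inf y i) l) ![1, y l] 1 = 0 := by
      rw [bd_pq, pq_lc_inf f hf y hl, derivative_lin, eval_lin, Function.update_eq_self, pderiv_coeff_Lam hl,
        ← coeff_lin, h5 l hl]
    have e0 : bq (lc f (inf y i) l) ![1, y l] = 0 := by
      rw [bq_pq, pq_lc_inf f hf y hl, eval_lin, Function.update_eq_self, ← coeff_lin, h4]
    have e2 := bd_euler (lc f (inf y i) l) ![1, y l]
    rw [e1, e0] at e2
    simp only [Matrix.cons_val_zero, Matrix.cons_val_one, one_mul, mul_zero, add_zero] at e2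
    rw [e]
    fin_cases k
    · exact e2
    · exact e1

end ring

section field

variable {K : Type} [Field K] {n : ℕ}

theorem degreeOf_map_le' (f : MvPolynomial (Fin n) K) (j : Fin n) {A : Type} [Field A] (φ : K →+* A) :
    (MvPolynomial.map φ f).degreeOf j ≤ f.degreeOf j := by
  classical
  rw [degreeOf_le_iff]
  intro m hm
  rw [mem_support_iff, coeff_map] at hm
  exact monomial_le_degreeOf j (mem_support_iff.2 fun h => hm (by rw [h, map_zero]))

theorem lin_map {A : Type} [Field A] (φ : K →+* A) (y : Fin n → K) (i : Fin n) (f : MvPolynomial (Fin n) K) :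
    lin (fun l => φ (y l)) i (MvPolynomial.map φ f) = (lin y i f).map φ := by
  have h : ((aeval (fun l => if l = i then Polynomial.X else Polynomial.C (φ (y l))) :
        MvPolynomial (Fin n) A →ₐ[A] _) : MvPolynomial (Fin n) A →+* Polynomial A).comp (MvPolynomial.map φ) =
      (Polynomial.mapRingHom φ).comp
      ((aeval (fun l => if l = i then Polynomial.X else Polynomial.C (y l)) : MvPolynomial (Fin n) K →ₐ[K] _) :
        MvPolynomial (Fin n) K →+* Polynomial K) := by
    apply MvPolynomial.ringHom_ext
    · intro a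
      rw [RingHom.comp_apply, RingHom.comp_apply, map_C]
      simp
    · intro l
      rw [RingHom.comp_apply, RingHom.comp_apply, map_X]
      by_cases hl : l = i
      · simp [hl]
      · simp [hl]
  exact RingHom.congr_fun h f

/-- no affine singular points -/
theorem no_aff (f : MvPolynomial (Fin n) K) (hf : ∀ j, f.degreeOf j ≤ 4) (hsm : SmoothN f)
    (y : Fin n → AlgebraicClosure K) (h0 : aeval y f = 0) (h1 : ∀ l, aeval y (pderiv l f) = 0) : False := by
  obtain ⟨i, k, hik⟩ := hsm (af y) (fun j h => by
    have h2 := congrFun h 0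
    simp [af] at h2)
  apply hik
  apply sing_aff
  · exact fun j => (degreeOf_map_le' f j _).trans (hf j)
  · rw [eval_map, ← aeval_def]
    exact h0
  · intro l
    rw [pderiv_map, eval_map, ← aeval_def]
    exact h1 l

/-- no singular points at infinity -/
theorem no_inf (f : MvPolynomial (Fin n) K) (hf : ∀ j, f.degreeOf j ≤ 4) (hsm : SmoothN f)
    (y : Fin n → K) (i : Fin n) (h3 : (lin y i f).coeff 3 = 0) (h4 : (lin y i f).coeff 4 = 0)
    (h5 : ∀ l, l ≠ i → (lin y i (pderiv l f)).coeff 4 = 0) : False := by
  obtain ⟨l, k, hlk⟩ := hsm (inf (fun l => algebraMap K (AlgebraicClosure K) (y l)) i) (fun j h => by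
    by_cases hj : j = i
    · have h2 := congrFun h 1
      simp [inf, hj] at h2
    · have h2 := congrFun h 0
      simp [inf, hj, af] at h2)
  apply hlk
  apply sing_inf
  · exact fun j => (degreeOf_map_le' f j _).trans (hf j)
  · rw [lin_map, Polynomial.coeff_map, h3, map_zero]
  · rw [lin_map, Polynomial.coeff_map, h4, map_zero]
  · intro l hl
    rw [pderiv_map, lin_map, Polynomial.coeff_map, h5 l hl, map_zero]

/-- a polynomial which involves a variable has a zero over the algebraic closure -/
theorem exists_zero' [Infinite K] (p : MvPolynomial (Fin n) K) (i : Fin n) (hp : (Lam i p).natDegree ≠ 0) :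
    ∃ y : Fin n → AlgebraicClosure K, aeval y p = 0 := by
  have h1 : (Lam i p).leadingCoeff ≠ 0 := by
    intro h
    apply hp
    rw [Polynomial.leadingCoeff_eq_zero] at h
    rw [h, Polynomial.natDegree_zero]
  obtain ⟨y0, hy0⟩ : ∃ y0 : Fin n → K, eval y0 (Lam i p).leadingCoeff ≠ 0 := by
    by_contra hcon
    push Not at hcon
    apply h1
    apply MvPolynomial.funext
    intro y
    rw [hcon y, map_zero]
  have h2 : (lin y0 i p).natDegree = (Lam i p).natDegree := by
    rw [← map_Lam]
    exact Polynomial.natDegree_map_of_leadingCoeff_ne_zero _ hy0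
  have h3 : ((lin y0 i p).map (algebraMap K (AlgebraicClosure K))).degree ≠ 0 := by
    intro h
    rw [Polynomial.degree_map] at h
    have h4 := Polynomial.natDegree_eq_of_degree_eq_some h
    rw [h2] at h4
    exact hp h4
  obtain ⟨t, ht⟩ := IsAlgClosed.exists_root _ h3
  refine ⟨Function.update (fun l => algebraMap K (AlgebraicClosure K) (y0 l)) i t, ?_⟩
  rw [← lin_map, Polynomial.IsRoot.def, eval_lin, eval_map, ← aeval_def] at ht
  exact ht

end field

end Pool.Agent.Q224.TT
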