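import Pool.Agent.Q224.TT.Res

/-!
# Project TT (helper35), part 2, job MZN (helper224)
-/

set_option autoImplicit false

open MvPolynomial

namespace Pool.Agent.Q224.TT

open Pool.Agent.Q35.TT

section

variable {K : Type} [Field K] {n : ℕ}

/-- `g = A + w B` modulo `w² - f` -/
theorem decomp (f : MvPolynomial (Fin n) K) (g : MvPolynomial (Option (Fin n)) K) :
    ∃ A B : MvPolynomial (Fin n) K, ∀ (W : K) (z : Fin n → K), W ^ 2 = eval z f →
      eval (fun o => o.elim W z) g = eval z A + W * eval z B := by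
  induction g using MvPolynomial.induction_on with
  | C a => exact ⟨C a, 0, fun W z _ => by simp⟩
  | add p q hp hq =>
    obtain ⟨A, B, h⟩ := hp
    obtain ⟨A', B', h'⟩ := hq
    refine ⟨A + A', B + B', fun W z hW => ?_⟩
    rw [map_add, h W z hW, h' W z hW, map_add, map_add]
    ring
  | mul_X p o hp =>
    obtain ⟨A, B, h⟩ := hp
    cases o with
    | none =>
      refine ⟨B * f, A, fun W z hW => ?_⟩
      rw [map_mul, eval_X, h W z hW, map_mul, ← hW]
      simp only [Option.elim_none]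
      ring
    | some i =>
      refine ⟨A * X i, B * X i, fun W z hW => ?_⟩
      rw [map_mul, eval_X, h W z hW, map_mul, map_mul, eval_X]
      simp only [Option.elim_some]
      ring

/-- the polynomials which vanish at the `K`-points over a plane -/
def IP (f : MvPolynomial (Fin n) K) (P : Set (Fin n → K)) : Set (MvPolynomial (Option (Fin n)) K) :=
  {g | ∀ (W' : K) (z' : Fin n → K), W' ^ 2 = eval z' f → z' ∈ P → eval (fun o => o.elim W' z') g = 0}

/-- the restriction to the branch divisor -/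
noncomputable def br (g : MvPolynomial (Option (Fin n)) K) : MvPolynomial (Fin n) K :=
  aeval (fun o => o.elim 0 X) g

theorem eval_br (g : MvPolynomial (Option (Fin n)) K) (z : Fin n → K) :
    eval z (br g) = eval (fun o => o.elim 0 z) g := by
  unfold br
  rw [← MvPolynomial.coe_aeval_eq_eval, ← MvPolynomial.coe_aeval_eq_eval]
  change (aeval z) ((aeval (fun o : Option (Fin n) => o.elim 0 X)) g) = (aeval (fun o : Option (Fin n) => o.elim 0 z)) g
  rw [← AlgHom.comp_apply]
  congr 1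
  apply MvPolynomial.algHom_ext
  intro o
  rw [AlgHom.comp_apply, aeval_X, aeval_X]
  cases o with
  | none => simp
  | some i => simp

theorem finite_sq (a : K) : {W : K | W ^ 2 = a}.Finite := by
  have h0 : (Polynomial.X ^ 2 - Polynomial.C a : Polynomial K) ≠ 0 := Polynomial.X_pow_sub_C_ne_zero (by norm_num) a
  refine (Polynomial.finite_setOf_isRoot h0).subset ?_
  intro W hW
  change (Polynomial.X ^ 2 - Polynomial.C a : Polynomial K).eval W = 0
  rw [Polynomial.eval_sub, Polynomial.eval_pow, Polynomial.eval_X, Polynomial.eval_C, sub_eq_zero]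
  exact hW

/-- the finite set of special planes, with the whole space -/
def EE (f : MvPolynomial (Fin n) K) : Set (Set (Fin n → K)) :=
  {P | ∃ J : Finset (Fin n), J.Nonempty ∧ ∃ z, eval z f ≠ 0 ∧ SpecN f z J ∧ P = {y | OnPl J z y}}

theorem EE_finite (f : MvPolynomial (Fin n) K) (hfin : FinSpec f) : (EE f).Finite := by
  have h1 : EE f ⊆ ⋃ J : Finset (Fin n), {P : Set (Fin n → K) | J.Nonempty ∧ ∃ z, eval z f ≠ 0 ∧ SpecN f z J ∧
      P = {y | OnPl J z y}} := by
    rintro P ⟨J, hJ, h⟩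
    exact Set.mem_iUnion.2 ⟨J, hJ, h⟩
  refine Set.Finite.subset (Set.finite_iUnion fun J => ?_) h1
  by_cases hJ : J.Nonempty
  · by_cases hJu : J = Finset.univ
    · refine (Set.finite_singleton (Set.univ : Set (Fin n → K))).subset ?_
      rintro P ⟨-, z, -, -, rfl⟩
      rw [Set.mem_singleton_iff, Set.eq_univ_iff_forall]
      intro y k hk
      exact absurd (by rw [hJu]; exact Finset.mem_univ k) hk
    · refine (hfin J hJ hJu).subset ?_
      rintro P ⟨-, z, h1, h2, h3⟩
      exact ⟨z, h1, h2, h3⟩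
  · refine Set.finite_empty.subset ?_
    rintro P ⟨h, -⟩
    exact absurd h hJ

/-- the points which are torsion in all directions -/
def TT0 (f : MvPolynomial (Fin n) K) : Set (K × (Fin n → K)) :=
  {p | p.1 ^ 2 = eval p.2 f ∧ ∀ i, TorN f p.2 i}

theorem TT0_finite (f : MvPolynomial (Fin n) K) (hT : {z : Fin n → K | ∀ i, TorN f z i}.Finite) : (TT0 f).Finite := by
  refine Set.Finite.subset (hT.biUnion (t := fun z => (fun W : K => (W, z)) '' {W : K | W ^ 2 = eval z f})
    fun z _ => (finite_sq _).image _) ?_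
  rintro ⟨W, z⟩ ⟨h1, h2⟩
  exact Set.mem_biUnion (x := z) h2 ⟨W, h1, rfl⟩

end

/-- the key lemma -/
theorem key (h2 : S_CLA) (h3 : S_NSQ) {K : Type} [Field K] [NumberField K] {n : ℕ} (f : MvPolynomial (Fin n) K)
    (hf : ∀ j, f.degreeOf j ≤ 4) (hsm : SmoothN f) (hfin : FinSpec f) {L : Type} [NontriviallyNormedField L]
    [CompleteSpace L] (σ : K →+* L) (hσ : DenseRange σ) (W : K) (z : Fin n → K) (hW : W ≠ 0) (hWz : W ^ 2 = eval z f)
    (hnt : ∃ i, ¬ TorN f z i) :
    ∃ J : Finset (Fin n), J.Nonempty ∧ SpecN f z J ∧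
      locN σ f (σ W) (fun i => σ (z i)) ⊆ IP f {y | OnPl J z y} := by
  have : Infinite K := CharZero.infinite K
  have hz : eval z f ≠ 0 := by
    rw [← hWz]
    exact pow_ne_zero 2 hW
  obtain ⟨J, hJ, hfull, hspec⟩ := h2 K L σ hσ n f hf hsm hfin z W hW hWz hnt
  refine ⟨J, hJ, hspec, ?_⟩
  rintro g ⟨U, hU, hg⟩ W' z' hW' hz'
  obtain ⟨A, B, hAB⟩ := decomp f g
  obtain ⟨ε, hε, hball⟩ := Metric.mem_nhds_iff.1 hU
  have hAB0 : ∀ y, OnPl J z y → eval y A ^ 2 = eval y f * eval y B ^ 2 := by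
    intro y hy
    by_contra hne
    obtain ⟨z1, w1, k1, k2, k3, k4, k5⟩ := hfull ε hε (A ^ 2 - f * B ^ 2) ⟨y, hy, by
      rw [map_sub, map_mul, map_pow, map_pow, sub_ne_zero]
      exact hne⟩
    apply k5
    have hin : (σ w1, fun i => σ (z1 i)) ∈ U := by
      apply hball
      rw [Metric.mem_ball, Prod.dist_eq, max_lt_iff]
      constructor
      · rw [dist_eq_norm]
        exact k4
      · rw [dist_pi_lt_iff hε]
        intro i
        rw [dist_eq_norm]
        exact k3 i
    have h5 := hg w1 z1 k1 hin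
    rw [hAB w1 z1 k1] at h5
    rw [map_sub, map_mul, map_pow, map_pow, ← k1]
    have h6 : eval z1 A = - (w1 * eval z1 B) := eq_neg_of_add_eq_zero_left h5
    rw [h6]
    ring
  obtain ⟨hA, hB⟩ := h3 K n f hf hsm J z hJ hz hspec A B hAB0 z' hz'
  rw [hAB W' z' hW', hA, hB]
  ring

section

variable {K : Type} [Field K] {n : ℕ} {L : Type} [NontriviallyNormedField L]

/-- the relation between a point and a special plane through it -/
def RR (σ : K →+* L) (f : MvPolynomial (Fin n) K) (W : K) (z : Fin n → K) (P : Set (Fin n → K)) : Prop :=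
  z ∈ P ∧ locN σ f (σ W) (fun i => σ (z i)) ⊆ IP f P

/-- the special planes near a point -/
def E1 (σ : K →+* L) (f : MvPolynomial (Fin n) K) (w : L) (x : Fin n → L) : Set (Set (Fin n → K)) :=
  {P | P ∈ EE f ∧ ∀ U ∈ nhds (w, x), ∃ (W : K) (z : Fin n → K), (σ W, fun i => σ (z i)) ∈ U ∧ RR σ f W z P}

/-- the torsion points over a point -/
def T1 (σ : K →+* L) (f : MvPolynomial (Fin n) K) (w : L) (x : Fin n → L) : Set (K × (Fin n → K)) :=
  {t | t ∈ TT0 f ∧ (σ t.1, fun i => σ (t.2 i)) = (w, x)}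

/-- the local ideal of the branch divisor -/
def JB (σ : K →+* L) (f : MvPolynomial (Fin n) K) (x : Fin n → L) : Set (MvPolynomial (Fin n) K) :=
  {g | ∃ U ∈ nhds x, ∀ z : Fin n → K, eval z f = 0 → (fun i => σ (z i)) ∈ U → eval z g = 0}

/-- the set of polynomials determined by the data -/
def PHI (f : MvPolynomial (Fin n) K) (E' : Set (Set (Fin n → K))) (T' : Set (K × (Fin n → K)))
    (Q : Set (MvPolynomial (Option (Fin n)) K)) : Set (MvPolynomial (Option (Fin n)) K) :=
  {g | (∀ P ∈ E', g ∈ IP f P) ∧ (∀ t ∈ T', eval (fun o => o.elim t.1 t.2) g = 0) ∧ g ∈ Q}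

open Classical in
/-- the condition at the branch divisor -/
noncomputable def QQ (σ : K →+* L) (f : MvPolynomial (Fin n) K) (w : L) (x : Fin n → L) :
    Set (MvPolynomial (Option (Fin n)) K) :=
  if w = 0 then {g | br g ∈ JB σ f x} else Set.univ

theorem locN_eq (σ : K →+* L) (f : MvPolynomial (Fin n) K) (hE : (EE f).Finite) (hT : (TT0 f).Finite)
    (hkey : ∀ (W : K) (z : Fin n → K), W ≠ 0 → W ^ 2 = eval z f → (∃ i, ¬ TorN f z i) → ∃ P ∈ EE f, RR σ f W z P)
    (w : L) (x : Fin n → L) : locN σ f w x = PHI f (E1 σ f w x) (T1 σ f w x) (QQ σ f w x) := by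
  classical
  apply Set.Subset.antisymm
  · rintro g ⟨U, hU, hg⟩
    refine ⟨?_, ?_, ?_⟩
    · rintro P ⟨-, hP⟩
      obtain ⟨V, hVU, hVo, hV⟩ := mem_nhds_iff.1 hU
      obtain ⟨W, z, hWz, hR⟩ := hP V (hVo.mem_nhds hV)
      exact hR.2 ⟨U, Filter.mem_of_superset (hVo.mem_nhds hWz) hVU, hg⟩
    · rintro t ⟨ht, ht2⟩
      refine hg t.1 t.2 ht.1 ?_
      rw [ht2]
      exact mem_of_mem_nhds hU
    · unfold QQ
      by_cases hw : w = 0
      · rw [if_pos hw]
        subst hw
        refine ⟨{x' | ((0 : L), x') ∈ U}, ?_, ?_⟩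
        · have hc : Continuous (fun x' : Fin n → L => ((0 : L), x')) := by fun_prop
          exact hc.continuousAt.preimage_mem_nhds hU
        · intro z hz hzU
          rw [eval_br]
          refine hg 0 z ?_ ?_
          · rw [hz]
            ring
          · rw [map_zero]
            exact hzU
      · rw [if_neg hw]
        exact Set.mem_univ _
  · rintro g ⟨h1, h2, h3⟩
    -- the neighbourhoods
    have hA : ∀ P, ∃ U ∈ nhds (w, x), P ∈ EE f → P ∉ E1 σ f w x → ∀ (W : K) (z : Fin n → K),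
        (σ W, fun i => σ (z i)) ∈ U → ¬ RR σ f W z P := by
      intro P
      by_cases hP : P ∈ EE f ∧ P ∉ E1 σ f w x
      · have h4 : ¬ ∀ U ∈ nhds (w, x), ∃ (W : K) (z : Fin n → K), (σ W, fun i => σ (z i)) ∈ U ∧ RR σ f W z P :=
          fun h => hP.2 ⟨hP.1, h⟩
        push Not at h4
        obtain ⟨U, hU, h5⟩ := h4
        exact ⟨U, hU, fun _ _ => h5⟩
      · exact ⟨Set.univ, Filter.univ_mem, fun h4 h5 => absurd ⟨h4, h5⟩ hP⟩
    have hB : ∀ t : K × (Fin n → K), ∃ U ∈ nhds (w, x), t ∈ TT0 f → (σ t.1, fun i => σ (t.2 i)) ∈ U →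
        t ∈ T1 σ f w x := by
      intro t
      by_cases ht : (σ t.1, fun i => σ (t.2 i)) = (w, x)
      · exact ⟨Set.univ, Filter.univ_mem, fun h4 _ => ⟨h4, ht⟩⟩
      · refine ⟨{(σ t.1, fun i => σ (t.2 i))}ᶜ, ?_, fun _ h5 => absurd rfl h5⟩
        exact isOpen_compl_singleton.mem_nhds (fun h => ht h.symm)
    have hC : ∃ U ∈ nhds (w, x), ∀ (z : Fin n → K), eval z f = 0 → ((0 : L), fun i => σ (z i)) ∈ U →
        eval (fun o => o.elim 0 z) g = 0 := by
      unfold QQ at h3
      by_cases hw : w = 0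
      · rw [if_pos hw] at h3
        obtain ⟨U, hU, h5⟩ := h3
        refine ⟨{q | q.2 ∈ U}, ?_, ?_⟩
        · exact continuous_snd.continuousAt.preimage_mem_nhds hU
        · intro z hz hzU
          rw [← eval_br]
          exact h5 z hz hzU
      · refine ⟨{q | q.1 ≠ 0}, ?_, ?_⟩
        · exact (isOpen_compl_singleton.preimage continuous_fst).mem_nhds hw
        · intro z _ hzU
          exact absurd rfl hzU
    choose UA hUA hUA1 using hA
    choose UB hUB hUB1 using hB
    obtain ⟨UC, hUC, hUC1⟩ := hC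
    refine ⟨(⋂ P ∈ EE f, UA P) ∩ (⋂ t ∈ TT0 f, UB t) ∩ UC,
      Filter.inter_mem (Filter.inter_mem ((Filter.biInter_mem hE).2 fun P _ => hUA P)
        ((Filter.biInter_mem hT).2 fun t _ => hUB t)) hUC, ?_⟩
    rintro W z hWz ⟨⟨hinA, hinB⟩, hinC⟩
    rw [Set.mem_iInter₂] at hinA hinB
    by_cases hWz0 : W = 0
    · subst hWz0
      rw [map_zero] at hinC
      refine hUC1 z ?_ hinC
      rw [← hWz]
      ring
    · by_cases htor : ∀ i, TorN f z i
      · have ht : (W, z) ∈ TT0 f := ⟨hWz, htor⟩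
        exact h2 (W, z) (hUB1 (W, z) ht (hinB (W, z) ht))
      · push Not at htor
        obtain ⟨P, hP, hR⟩ := hkey W z hWz0 hWz htor
        have hPE : P ∈ E1 σ f w x := by
          by_contra hPn
          exact hUA1 P hP hPn W z (hinA P hP) hR
        exact h1 P hPE W z hWz hR.1

end

theorem mzn (h1 : S_TAN) (h2 : S_CLA) (h3 : S_NSQ) : S_MZN := by
  classical
  intro K _ _ n f hf hsm hfin L _ _ σ hσ
  have hT := h1 K n f hf hsm
  have hE := EE_finite f hfin
  have hT0 := TT0_finite f hT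
  have hkey : ∀ (W : K) (z : Fin n → K), W ≠ 0 → W ^ 2 = eval z f → (∃ i, ¬ TorN f z i) →
      ∃ P ∈ EE f, RR σ f W z P := by
    intro W z hW hWz hnt
    obtain ⟨J, hJ, hspec, hI⟩ := key h2 h3 f hf hsm hfin σ hσ W z hW hWz hnt
    refine ⟨{y | OnPl J z y}, ⟨J, hJ, z, ?_, hspec, rfl⟩, on_refl J z, hI⟩
    rw [← hWz]
    exact pow_ne_zero 2 hW
  have hsub1 : ∀ w x, E1 σ f w x ⊆ EE f := fun w x P hP => hP.1
  have hsub2 : ∀ w x, T1 σ f w x ⊆ TT0 f := fun w x t ht => ht.1
  refine ⟨?_, ?_, ?_⟩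
  · intro W z hW hWz hnt hnospec g hg W' z' hWz'
    obtain ⟨J, hJ, hspec, hI⟩ := key h2 h3 f hf hsm hfin σ hσ W z hW hWz hnt
    have hJu : J = Finset.univ := by
      by_contra hne
      exact hnospec J hJ hne hspec
    refine hI hg W' z' hWz' ?_
    intro k hk
    exact absurd (by rw [hJu]; exact Finset.mem_univ k) hk
  · refine Set.Finite.subset (Set.Finite.image (fun q : Set (Set (Fin n → K)) × Set (K × (Fin n → K)) =>
      PHI f q.1 q.2 Set.univ) (hE.finite_subsets.prod hT0.finite_subsets)) ?_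
    rintro J ⟨w, x, hw, -, rfl⟩
    refine ⟨(E1 σ f w x, T1 σ f w x), ⟨hsub1 w x, hsub2 w x⟩, ?_⟩
    rw [locN_eq σ f hE hT0 hkey w x]
    unfold QQ
    rw [if_neg hw]
  · intro hB
    refine Set.Finite.subset (Set.Finite.image
      (fun q : (Set (Set (Fin n → K)) × Set (K × (Fin n → K))) × Set (MvPolynomial (Option (Fin n)) K) =>
      PHI f q.1.1 q.1.2 q.2) ((hE.finite_subsets.prod hT0.finite_subsets).prod
        ((hB.image (fun J => {g : MvPolynomial (Option (Fin n)) K | br g ∈ J})).insert Set.univ))) ?_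
    rintro J ⟨w, x, hwx, rfl⟩
    refine ⟨((E1 σ f w x, T1 σ f w x), QQ σ f w x), ⟨⟨hsub1 w x, hsub2 w x⟩, ?_⟩, ?_⟩
    · change QQ σ f w x ∈ _
      unfold QQ
      by_cases hw : w = 0
      · rw [if_pos hw]
        right
        refine ⟨JB σ f x, ⟨x, ?_, rfl⟩, rfl⟩
        rw [← hwx, hw]
        ring
      · rw [if_neg hw]
        left
        rfl
    · exact (locN_eq σ f hE hT0 hkey w x).symm

end Pool.Agent.Q224.TT
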