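import Pool.Agent.Q224.TT.Geo

/-!
# Project TT (helper35), part 2, job NSQ (helper224)
-/

set_option autoImplicit false

open MvPolynomial

namespace Pool.Agent.Q224.TT

open Pool.Agent.Q35.TT

section

variable {K : Type} [Field K] {n : ℕ}

theorem res_X {J : Finset (Fin n)} {z : Fin n → K} {j : Fin n} (h : j ∈ J) : res J z (X j) = X j := by
  unfold res
  rw [aeval_X, if_pos h]

theorem res_X' {J : Finset (Fin n)} {z : Fin n → K} {j : Fin n} (h : j ∉ J) : res J z (X j) = C (z j) := by
  unfold res
  rw [aeval_X, if_neg h]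

theorem res_C (J : Finset (Fin n)) (z : Fin n → K) (a : K) : res J z (C a) = C a := by
  unfold res
  rw [algHom_C]
  rfl

theorem pderiv_res {J : Finset (Fin n)} {z : Fin n → K} {i : Fin n} (hi : i ∈ J) (f : MvPolynomial (Fin n) K) :
    pderiv i (res J z f) = res J z (pderiv i f) := by
  induction f using MvPolynomial.induction_on with
  | C a => rw [res_C, pderiv_C, map_zero]
  | add p q hp hq => rw [map_add, map_add, map_add, map_add, hp, hq]
  | mul_X p j hp =>
    rw [map_mul, Derivation.leibniz, Derivation.leibniz, map_add, smul_eq_mul, smul_eq_mul, smul_eq_mul, smul_eq_mul,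
      map_mul, map_mul, hp]
    congr 1
    congr 1
    by_cases hj : j ∈ J
    · rw [res_X hj]
      by_cases hij : j = i
      · rw [hij, pderiv_X_self, map_one]
      · rw [pderiv_X_of_ne (fun h => hij h), map_zero]
    · have hij : j ≠ i := fun h => hj (h ▸ hi)
      rw [res_X' hj, pderiv_C, pderiv_X_of_ne (fun h => hij h), map_zero]

theorem lin_res {J : Finset (Fin n)} {z : Fin n → K} {i : Fin n} (hi : i ∈ J) (y : Fin n → K)
    (f : MvPolynomial (Fin n) K) : lin y i (res J z f) = lin (mix J z y) i f := by
  have h : ((aeval (fun l => if l = i then Polynomial.X else Polynomial.C (y l)) :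
      MvPolynomial (Fin n) K →ₐ[K] Polynomial K)).comp (res J z) =
      (aeval (fun l => if l = i then Polynomial.X else Polynomial.C (mix J z y l)) :
      MvPolynomial (Fin n) K →ₐ[K] Polynomial K) := by
    apply MvPolynomial.algHom_ext
    intro j
    rw [AlgHom.comp_apply, aeval_X]
    by_cases hj : j ∈ J
    · rw [res_X hj, aeval_X]
      unfold mix
      rw [if_pos hj]
    · have hij : j ≠ i := fun h => hj (h ▸ hi)
      rw [res_X' hj, if_neg hij, algHom_C]
      unfold mix
      rw [if_neg hj]
      rfl
  exact AlgHom.congr_fun h f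

/-- the point of the plane over a larger field -/
noncomputable def mixA {A : Type} [Field A] [Algebra K A] (J : Finset (Fin n)) (z : Fin n → K) (y : Fin n → A) :
    Fin n → A := fun j => aeval y (res J z (X j))

theorem aeval_res {A : Type} [Field A] [Algebra K A] (J : Finset (Fin n)) (z : Fin n → K) (y : Fin n → A)
    (f : MvPolynomial (Fin n) K) : aeval y (res J z f) = aeval (mixA J z y) f := by
  have h : (aeval y : MvPolynomial (Fin n) K →ₐ[K] A).comp (res J z) = aeval (mixA J z y) := by
    apply MvPolynomial.algHom_ext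
    intro j
    rw [AlgHom.comp_apply, aeval_X]
    rfl
  exact AlgHom.congr_fun h f

theorem lin_natDegree (y : Fin n → K) (i : Fin n) (f : MvPolynomial (Fin n) K) :
    (lin y i f).natDegree ≤ (Lam i f).natDegree := by
  rw [← map_Lam]
  exact Polynomial.natDegree_map_le

/-- no singular points at infinity on a plane -/
theorem no_inf' (f : MvPolynomial (Fin n) K) (hf : ∀ j, f.degreeOf j ≤ 4) (hsm : SmoothN f)
    (J : Finset (Fin n)) (z : Fin n → K) {i : Fin n} (hi : i ∈ J) (h2 : (Lam i (res J z f)).natDegree ≤ 2)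
    (h3 : ∀ k, k ∉ J → (Lam i (res J z (pderiv k f))).natDegree ≤ 3) : False := by
  have hlin : ∀ g : MvPolynomial (Fin n) K, lin z i g = lin z i (res J z g) := by
    intro g
    rw [lin_res hi, mix_eq (on_refl J z)]
  apply no_inf f hf hsm z i
  · rw [hlin, Polynomial.coeff_eq_zero_of_natDegree_lt]
    exact lt_of_le_of_lt (lin_natDegree _ _ _) (by omega)
  · rw [hlin, Polynomial.coeff_eq_zero_of_natDegree_lt]
    exact lt_of_le_of_lt (lin_natDegree _ _ _) (by omega)
  · intro l hl
    rw [hlin]
    by_cases hlJ : l ∈ J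
    · rw [← pderiv_res hlJ, coeff_lin, ← pderiv_coeff_Lam hl, Polynomial.coeff_eq_zero_of_natDegree_lt, map_zero,
        map_zero]
      omega
    · rw [Polynomial.coeff_eq_zero_of_natDegree_lt]
      exact lt_of_le_of_lt (lin_natDegree _ _ _) (by have := h3 l hlJ; omega)

/-- no affine singular points on a plane -/
theorem no_aff' (f : MvPolynomial (Fin n) K) (hf : ∀ j, f.degreeOf j ≤ 4) (hsm : SmoothN f)
    (J : Finset (Fin n)) (z : Fin n → K) (y : Fin n → AlgebraicClosure K) (h0 : aeval y (res J z f) = 0)
    (h1 : ∀ l ∈ J, aeval y (pderiv l (res J z f)) = 0)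
    (h2 : ∀ l, l ∉ J → aeval y (res J z (pderiv l f)) = 0) : False := by
  apply no_aff f hf hsm (mixA J z y)
  · rw [← aeval_res]
    exact h0
  · intro l
    rw [← aeval_res]
    by_cases hl : l ∈ J
    · rw [← pderiv_res hl]
      exact h1 l hl
    · exact h2 l hl

end

theorem nsq : S_NSQ := by
  intro K _ _ n f hf hsm J z hJ hz hspec G H hGH
  have : Infinite K := CharZero.infinite K
  have hg0 : res J z f ≠ 0 := res_ne_zero.2 ⟨z, on_refl J z, hz⟩
  have hsq : res J z G ^ 2 = res J z f * res J z H ^ 2 := by
    apply MvPolynomial.funext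
    intro y
    rw [map_pow, map_mul, map_pow, eval_res, eval_res, eval_res]
    exact hGH _ (mix_on J z y)
  have hsp : ∀ k, k ∉ J → ∃ c : K, res J z (pderiv k f) = C c * res J z f := by
    intro k hk
    obtain ⟨c, hc⟩ := hspec k hk
    refine ⟨c, ?_⟩
    apply MvPolynomial.funext
    intro y
    rw [map_mul, eval_C, eval_res, eval_res]
    exact hc _ (mix_on J z y)
  have hH : res J z H = 0 := by
    by_contra hH
    have h1 : res J z H ^ 2 ∣ res J z G ^ 2 := ⟨res J z f, by rw [hsq]; ring⟩
    have h2 : res J z H ∣ res J z G := (UniqueFactorizationMonoid.pow_dvd_pow_iff_dvd (by norm_num)).1 h1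
    obtain ⟨q, hq⟩ := h2
    have h3 : res J z f = q ^ 2 := by
      have h4 : res J z H ^ 2 * res J z f = res J z H ^ 2 * q ^ 2 := by
        rw [hq] at hsq
        linear_combination -hsq
      exact mul_left_cancel₀ (pow_ne_zero 2 hH) h4
    by_cases hq1 : ∃ i, (Lam i q).natDegree ≠ 0
    · obtain ⟨i, hi⟩ := hq1
      obtain ⟨y, hy⟩ := exists_zero' q i hi
      have h5 : aeval y (res J z f) = 0 := by
        rw [h3, map_pow, hy]
        ring
      refine no_aff' f hf hsm J z y h5 ?_ ?_
      · intro l _
        rw [h3, Derivation.leibniz_pow, map_nsmul, smul_eq_mul, map_mul, map_pow, hy]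
        simp
      · intro l hl
        obtain ⟨c, hc⟩ := hsp l hl
        rw [hc, map_mul, h5, mul_zero]
    · push Not at hq1
      obtain ⟨i, hi⟩ := hJ
      have h6 : (Lam i (res J z f)).natDegree = 0 := by
        rw [h3, map_pow, Polynomial.natDegree_pow, hq1 i]
      refine no_inf' f hf hsm J z hi (by omega) ?_
      intro k hk
      obtain ⟨c, hc⟩ := hsp k hk
      rw [hc, map_mul, Lam_C]
      refine (Polynomial.natDegree_C_mul_le _ _).trans ?_
      omega
  have hG : res J z G = 0 := by
    rw [hH] at hsq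
    have h7 : res J z G ^ 2 = 0 := by
      rw [hsq]
      ring
    exact pow_eq_zero_iff (by norm_num) |>.1 h7
  intro y hy
  constructor
  · rw [← mix_eq hy, ← eval_res, hG, map_zero]
  · rw [← mix_eq hy, ← eval_res, hH, map_zero]

end Pool.Agent.Q224.TT
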