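import Pool.Agent.Q35.TT.Stm3

/-!
# Project TT (helper35), part 2: restriction of polynomials to planes (helper224)
-/

set_option autoImplicit false

open MvPolynomial

namespace Pool.Agent.Q224.TT

open Pool.Agent.Q35.TT

section

variable {K : Type} [Field K] {n : ℕ}

open Classical in
/-- the point of the plane through `z` in the directions of `J` with the coordinates `y` -/
noncomputable def mix (J : Finset (Fin n)) (z y : Fin n → K) : Fin n → K := fun i => if i ∈ J then y i else z i

theorem mix_on (J : Finset (Fin n)) (z y : Fin n → K) : OnPl J z (mix J z y) := by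
  intro k hk
  unfold mix
  rw [if_neg hk]

theorem mix_eq {J : Finset (Fin n)} {z y : Fin n → K} (h : OnPl J z y) : mix J z y = y := by
  funext i
  unfold mix
  by_cases hi : i ∈ J
  · rw [if_pos hi]
  · rw [if_neg hi, h i hi]

open Classical in
/-- the restriction of a polynomial to the plane -/
noncomputable def res (J : Finset (Fin n)) (z : Fin n → K) : MvPolynomial (Fin n) K →ₐ[K] MvPolynomial (Fin n) K :=
  aeval (fun i => if i ∈ J then X i else C (z i))

theorem eval_res (J : Finset (Fin n)) (z y : Fin n → K) (g : MvPolynomial (Fin n) K) :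
    eval y (res J z g) = eval (mix J z y) g := by
  classical
  unfold res
  rw [← MvPolynomial.coe_aeval_eq_eval, ← MvPolynomial.coe_aeval_eq_eval]
  change (aeval y) ((aeval (fun i => if i ∈ J then X i else C (z i))) g) = (aeval (mix J z y)) g
  rw [← AlgHom.comp_apply]
  congr 1
  apply MvPolynomial.algHom_ext
  intro i
  rw [AlgHom.comp_apply, aeval_X, aeval_X]
  unfold mix
  by_cases hi : i ∈ J
  · rw [if_pos hi, if_pos hi, aeval_X]
  · rw [if_neg hi, if_neg hi]
    simp

variable [Infinite K]

theorem res_ne_zero {J : Finset (Fin n)} {z : Fin n → K} {g : MvPolynomial (Fin n) K} :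
    res J z g ≠ 0 ↔ ∃ y, OnPl J z y ∧ eval y g ≠ 0 := by
  constructor
  · intro h
    by_contra hcon
    push Not at hcon
    apply h
    apply MvPolynomial.funext
    intro y
    rw [eval_res, map_zero]
    exact hcon _ (mix_on J z y)
  · rintro ⟨y, hy, hg⟩ h
    apply hg
    rw [← mix_eq hy, ← eval_res, h, map_zero]

theorem nv_mul {J : Finset (Fin n)} {z : Fin n → K} {g h : MvPolynomial (Fin n) K}
    (hg : ∃ y, OnPl J z y ∧ eval y g ≠ 0) (hh : ∃ y, OnPl J z y ∧ eval y h ≠ 0) :
    ∃ y, OnPl J z y ∧ eval y (g * h) ≠ 0 := by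
  rw [← res_ne_zero] at hg hh ⊢
  rw [map_mul]
  exact mul_ne_zero hg hh

theorem nv_prod {ι : Type} {J : Finset (Fin n)} {z : Fin n → K} (s : Finset ι) (g : ι → MvPolynomial (Fin n) K)
    (hg : ∀ i ∈ s, ∃ y, OnPl J z y ∧ eval y (g i) ≠ 0) :
    ∃ y, OnPl J z y ∧ eval y (∏ i ∈ s, g i) ≠ 0 := by
  rw [← res_ne_zero, map_prod, Finset.prod_ne_zero_iff]
  intro i hi
  rw [res_ne_zero]
  exact hg i hi

omit [Infinite K] in
theorem on_refl (J : Finset (Fin n)) (z : Fin n → K) : OnPl J z z := fun _ _ => rfl

omit [Infinite K] in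
theorem on_update (J : Finset (Fin n)) (z : Fin n → K) {i : Fin n} (hi : i ∈ J) (t : K) :
    OnPl J z (Function.update z i t) := by
  intro k hk
  have hki : k ≠ i := fun h => hk (h ▸ hi)
  rw [Function.update_of_ne hki]

omit [Infinite K] in
theorem nv_lin {J : Finset (Fin n)} {z : Fin n → K} {i : Fin n} (hi : i ∈ J) (t : K) :
    ∃ y, OnPl J z y ∧ eval y (X i - C t) ≠ 0 := by
  refine ⟨Function.update z i (t + 1), on_update J z hi _, ?_⟩
  rw [map_sub, eval_X, eval_C, Function.update_self]
  simp

omit [Infinite K] in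
theorem on_trans {J J' : Finset (Fin n)} (h : J' ⊆ J) {z y y' : Fin n → K} (h1 : OnPl J z y) (h2 : OnPl J' y y') :
    OnPl J z y' := fun k hk => (h2 k (fun h' => hk (h h'))).trans (h1 k hk)

/-- the restriction to a line in the direction of a coordinate -/
noncomputable def lin (z : Fin n → K) (j : Fin n) (g : MvPolynomial (Fin n) K) : Polynomial K :=
  aeval (fun l => if l = j then Polynomial.X else Polynomial.C (z l)) g

omit [Infinite K] in
theorem eval_lin (z : Fin n → K) (j : Fin n) (g : MvPolynomial (Fin n) K) (t : K) :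
    (lin z j g).eval t = eval (Function.update z j t) g := by
  unfold lin
  rw [← Polynomial.coe_aeval_eq_eval, ← MvPolynomial.coe_aeval_eq_eval]
  change (Polynomial.aeval t) ((aeval (fun l => if l = j then Polynomial.X else Polynomial.C (z l))) g) =
    (aeval (Function.update z j t)) g
  rw [← AlgHom.comp_apply]
  congr 1
  apply MvPolynomial.algHom_ext
  intro i
  rw [AlgHom.comp_apply, aeval_X, aeval_X]
  by_cases hi : i = j
  · rw [if_pos hi, hi, Function.update_self, Polynomial.aeval_X]
  · rw [if_neg hi, Function.update_of_ne hi]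
    simp

/-- only finitely many points of a line are zeros of a polynomial which does not vanish on it -/
theorem fin_zero (z : Fin n → K) (j : Fin n) (g : MvPolynomial (Fin n) K) (hg : eval z g ≠ 0) :
    {t : K | eval (Function.update z j t) g ≠ 0}.Infinite := by
  have h0 : lin z j g ≠ 0 := by
    intro h
    apply hg
    have h1 := eval_lin z j g (z j)
    rw [h, Polynomial.eval_zero, Function.update_eq_self] at h1
    exact h1.symm
  have h1 : {t : K | eval (Function.update z j t) g ≠ 0} = {t : K | (lin z j g).IsRoot t}ᶜ := by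
    ext t
    simp only [Set.mem_setOf_eq, Set.mem_compl_iff, Polynomial.IsRoot.def, eval_lin]
  rw [h1]
  refine Set.Finite.infinite_compl ?_
  exact (lin z j g).finite_setOf_isRoot h0

end

end Pool.Agent.Q224.TT
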