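import Pool.Agent.Q224.TT.Nsq

/-!
# Project TT (helper35), part 2, job SQF (helper224)
-/

set_option autoImplicit false

open MvPolynomial

namespace Pool.Agent.Q224.TT

open Pool.Agent.Q35.TT

section general

/-- pseudo-division -/
theorem pseudo {A : Type} [CommRing A] [IsDomain A] (b : Polynomial A) (hb : b ≠ 0) (a : Polynomial A) :
    ∃ (N : ℕ) (q r : Polynomial A), Polynomial.C b.leadingCoeff ^ N * a = q * b + r ∧ r.degree < b.degree := by
  induction h : a.natDegree using Nat.strong_induction_on generalizing a with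
  | _ d ih =>
    by_cases hlt : a.degree < b.degree
    · exact ⟨0, 0, a, by simp, hlt⟩
    · push Not at hlt
      have ha : a ≠ 0 := by
        rintro rfl
        rw [Polynomial.degree_zero] at hlt
        exact hb (Polynomial.degree_eq_bot.1 (le_bot_iff.1 hlt))
      have hdeg : b.natDegree ≤ a.natDegree := Polynomial.natDegree_le_natDegree hlt
      set a' : Polynomial A := Polynomial.C b.leadingCoeff * a -
        Polynomial.C a.leadingCoeff * Polynomial.X ^ (a.natDegree - b.natDegree) * b with ha'
      by_cases ha'0 : a' = 0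
      · refine ⟨1, Polynomial.C a.leadingCoeff * Polynomial.X ^ (a.natDegree - b.natDegree), 0, ?_, ?_⟩
        · rw [pow_one, add_zero]
          rw [ha'] at ha'0
          exact sub_eq_zero.1 ha'0
        · rw [Polynomial.degree_zero]
          exact bot_lt_iff_ne_bot.2 (fun h => hb (Polynomial.degree_eq_bot.1 h))
      · have hlc : b.leadingCoeff ≠ 0 := Polynomial.leadingCoeff_ne_zero.2 hb
        have hlca : a.leadingCoeff ≠ 0 := Polynomial.leadingCoeff_ne_zero.2 ha
        have h1 : a'.degree < a.degree := by
          rw [ha']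
          have h2 : (Polynomial.C b.leadingCoeff * a).degree = a.degree := Polynomial.degree_C_mul hlc
          rw [← h2]
          apply Polynomial.degree_sub_lt
          · rw [h2, mul_assoc, Polynomial.degree_C_mul hlca, Polynomial.degree_mul, Polynomial.degree_X_pow,
              Polynomial.degree_eq_natDegree ha, Polynomial.degree_eq_natDegree hb]
            norm_cast
            omega
          · exact mul_ne_zero (Polynomial.C_ne_zero.2 hlc) ha
          · rw [Polynomial.leadingCoeff_mul, Polynomial.leadingCoeff_C, Polynomial.leadingCoeff_mul,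
              Polynomial.leadingCoeff_mul, Polynomial.leadingCoeff_C, Polynomial.leadingCoeff_X_pow]
            ring
        have h3 : a'.natDegree < d := by
          rw [← h]
          exact Polynomial.natDegree_lt_natDegree ha'0 h1
        obtain ⟨N, q, r, h4, h5⟩ := ih _ h3 a' rfl
        refine ⟨N + 1, q + Polynomial.C b.leadingCoeff ^ N * (Polynomial.C a.leadingCoeff *
          Polynomial.X ^ (a.natDegree - b.natDegree)), r, ?_, h5⟩
        rw [ha'] at h4
        linear_combination h4

/-- a squarefree element divides everything which is divisible by its prime factors -/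
theorem sqf_dvd {R : Type} [CommRing R] [IsDomain R] [UniqueFactorizationMonoid R] (g : R) (hg : g ≠ 0) (h : R)
    (hsq : Squarefree g) (hp : ∀ p, Prime p → p ∣ g → p ∣ h) : g ∣ h := by
  revert hg hsq hp
  induction g using UniqueFactorizationMonoid.induction_on_prime generalizing h with
  | h₁ => intro hg; exact absurd rfl hg
  | h₂ x hx => intro _ _ _; exact hx.dvd
  | h₃ a p ha hpp ih =>
    intro _ hsq hall
    have hsqa : Squarefree a := hsq.squarefree_of_dvd (dvd_mul_left a p)
    obtain ⟨b, hb⟩ := ih h ha hsqa (fun q hq hqa => hall q hq (dvd_mul_of_dvd_right hqa p))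
    have hpa : ¬ p ∣ a := by
      rintro ⟨c, rfl⟩
      have h1 : p * p ∣ p * (p * c) := ⟨c, by ring⟩
      exact hpp.not_unit (hsq p h1)
    have hph : p ∣ h := hall p hpp (dvd_mul_right p a)
    rw [hb] at hph ⊢
    rcases hpp.dvd_or_dvd hph with h2 | h2
    · exact absurd h2 hpa
    · obtain ⟨c, rfl⟩ := h2
      exact ⟨c, by ring⟩

end general

section

variable {K : Type} [Field K] {n : ℕ}

/-- the exchange of `X i` and the new variable -/
noncomputable def swp (i : Fin n) : Polynomial (MvPolynomial (Fin n) K) →+* Polynomial (MvPolynomial (Fin n) K) :=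
  Polynomial.eval₂RingHom (Lam i) (Polynomial.C (X i))

theorem swp_C (i : Fin n) (g : MvPolynomial (Fin n) K) : swp i (Polynomial.C g) = Lam i g := by
  unfold swp
  rw [Polynomial.coe_eval₂RingHom, Polynomial.eval₂_C]

theorem swp_X (i : Fin n) : swp i (Polynomial.X : Polynomial (MvPolynomial (Fin n) K)) = Polynomial.C (X i) := by
  unfold swp
  rw [Polynomial.coe_eval₂RingHom, Polynomial.eval₂_X]

theorem swp_swp (i : Fin n) (P : Polynomial (MvPolynomial (Fin n) K)) : swp i (swp i P) = P := by
  have h : (swp i).comp (swp i) = RingHom.id (Polynomial (MvPolynomial (Fin n) K)) := by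
    apply Polynomial.ringHom_ext
    · intro g
      rw [RingHom.comp_apply, swp_C, RingHom.id_apply]
      have h2 : (swp i).comp (Lam i) = (Polynomial.C : MvPolynomial (Fin n) K →+* _) := by
        apply MvPolynomial.ringHom_ext
        · intro a
          rw [RingHom.comp_apply, Lam_C, swp_C, Lam_C]
        · intro l
          rw [RingHom.comp_apply]
          by_cases hl : l = i
          · rw [hl, Lam_X, swp_X]
          · rw [Lam_X' i hl, swp_C, Lam_X' i hl]
      exact RingHom.congr_fun h2 g
    · rw [RingHom.comp_apply, swp_X, swp_C, Lam_X, RingHom.id_apply]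
  exact RingHom.congr_fun h P

theorem Lam_prime (i : Fin n) (p : MvPolynomial (Fin n) K) (hp : Prime p) : Prime (Lam i p) := by
  let e : Polynomial (MvPolynomial (Fin n) K) ≃+* Polynomial (MvPolynomial (Fin n) K) :=
    RingEquiv.ofRingHom (swp i) (swp i) (RingHom.ext (swp_swp i)) (RingHom.ext (swp_swp i))
  have h1 : Prime (Polynomial.C p) := Polynomial.prime_C_iff.2 hp
  have h2 : Prime (e (Polynomial.C p)) := (MulEquiv.prime_iff e.toMulEquiv).2 h1
  have h3 : e (Polynomial.C p) = Lam i p := swp_C i p
  rwa [h3] at h2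

variable [Infinite K]

theorem eq_zero_of_eval (D c : MvPolynomial (Fin n) K) (hD : D ≠ 0) (h : ∀ y, eval y D ≠ 0 → eval y c = 0) :
    c = 0 := by
  have h1 : c * D = 0 := by
    apply MvPolynomial.funext
    intro y
    rw [map_mul, map_zero]
    by_cases hy : eval y D = 0
    · rw [hy, mul_zero]
    · rw [h y hy, zero_mul]
  exact (mul_eq_zero.1 h1).resolve_right hD

theorem exists_eval (D : MvPolynomial (Fin n) K) (hD : D ≠ 0) : ∃ y, eval y D ≠ 0 := by
  by_contra h
  push Not at h
  apply hD
  apply MvPolynomial.funext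
  intro y
  rw [h y, map_zero]

theorem Lam_ne_zero (i : Fin n) {g : MvPolynomial (Fin n) K} (hg : g ≠ 0) : Lam i g ≠ 0 := by
  rwa [Ne, map_eq_zero_iff _ (Lam_inj i)]

/-- a prime factor of `g` which involves `X i` divides `h`, if `g` divides `h²` on all lines -/
theorem prime_dvd (i : Fin n) (g h p : MvPolynomial (Fin n) K) (hg : g ≠ 0)
    (hdiv : ∀ y, eval y g ≠ 0 → lin y i g ∣ lin y i h ^ 2) (hp : Prime p) (hpg : p ∣ g)
    (hpi : (Lam i p).natDegree ≠ 0) : p ∣ h := by
  have hL : Lam i g ≠ 0 := Lam_ne_zero i hg
  obtain ⟨N, q, r, h1, h2⟩ := pseudo (Lam i g) hL (Lam i h ^ 2)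
  set ℓ := (Lam i g).leadingCoeff with hℓ
  have hℓ0 : ℓ ≠ 0 := Polynomial.leadingCoeff_ne_zero.2 hL
  have hr : r = 0 := by
    ext1 j
    rw [Polynomial.coeff_zero]
    refine eq_zero_of_eval (ℓ * g) _ (mul_ne_zero hℓ0 hg) ?_
    intro y hy
    rw [map_mul] at hy
    have hy1 : eval y ℓ ≠ 0 := left_ne_zero_of_mul hy
    have hy2 : eval y g ≠ 0 := right_ne_zero_of_mul hy
    have h3 := congrArg (Polynomial.map (eval y)) h1
    rw [Polynomial.map_mul, Polynomial.map_add, Polynomial.map_mul, Polynomial.map_pow, Polynomial.map_pow,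
      Polynomial.map_C, map_Lam, map_Lam] at h3
    have h4 : lin y i g ∣ r.map (eval y) := by
      obtain ⟨s, hs⟩ := hdiv y hy2
      refine ⟨Polynomial.C (eval y ℓ) ^ N * s - q.map (eval y), ?_⟩
      rw [hs] at h3
      linear_combination -h3
    have h5 : (r.map (eval y)).degree < (lin y i g).degree := by
      have h6 : (lin y i g).degree = (Lam i g).degree := by
        rw [← map_Lam]
        exact Polynomial.degree_map_eq_of_leadingCoeff_ne_zero _ hy1
      rw [h6]
      exact lt_of_le_of_lt Polynomial.degree_map_le h2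
    have h7 : r.map (eval y) = 0 := Polynomial.eq_zero_of_dvd_of_degree_lt h4 h5
    rw [← Polynomial.coeff_map, h7, Polynomial.coeff_zero]
  rw [hr, add_zero] at h1
  have hpP := Lam_prime i p hp
  have h8 : Lam i p ∣ Polynomial.C ℓ ^ N * Lam i h ^ 2 := by
    rw [h1]
    exact dvd_mul_of_dvd_right (map_dvd (Lam i) hpg) _
  have h9 : Lam i p ∣ Lam i h := by
    rcases hpP.dvd_or_dvd h8 with h10 | h10
    · exfalso
      have h11 := hpP.dvd_of_dvd_pow h10
      have h12 := Polynomial.natDegree_le_of_dvd h11 (Polynomial.C_ne_zero.2 hℓ0)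
      rw [Polynomial.natDegree_C] at h12
      omega
    · exact hpP.dvd_of_dvd_pow h10
  have h13 := map_dvd (Polynomial.evalRingHom (X i)) h9
  rw [Polynomial.coe_evalRingHom, eval_Lam, eval_Lam] at h13
  exact h13

/-- the comparison of the degrees -/
theorem deg_le (i : Fin n) (g h : MvPolynomial (Fin n) K) (hg : g ≠ 0) (hh : h ≠ 0)
    (hdeg : ∀ y, eval y g ≠ 0 → 2 * (lin y i h).natDegree ≤ 4 + (lin y i g).natDegree) :
    2 * (Lam i h).natDegree ≤ 4 + (Lam i g).natDegree := by
  have h1 : (Lam i g).leadingCoeff ≠ 0 := Polynomial.leadingCoeff_ne_zero.2 (Lam_ne_zero i hg)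
  have h2 : (Lam i h).leadingCoeff ≠ 0 := Polynomial.leadingCoeff_ne_zero.2 (Lam_ne_zero i hh)
  obtain ⟨y, hy⟩ := exists_eval ((Lam i g).leadingCoeff * (Lam i h).leadingCoeff * g)
    (mul_ne_zero (mul_ne_zero h1 h2) hg)
  rw [map_mul, map_mul] at hy
  have hy1 := left_ne_zero_of_mul (left_ne_zero_of_mul hy)
  have hy2 := right_ne_zero_of_mul (left_ne_zero_of_mul hy)
  have h3 := hdeg y (right_ne_zero_of_mul hy)
  rw [← map_Lam, ← map_Lam, Polynomial.natDegree_map_of_leadingCoeff_ne_zero _ hy1,
    Polynomial.natDegree_map_of_leadingCoeff_ne_zero _ hy2] at h3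
  exact h3

/-- a polynomial which does not involve a variable -/
theorem eval_update_of_deg (i : Fin n) (g : MvPolynomial (Fin n) K) (hg : (Lam i g).natDegree = 0) (y : Fin n → K)
    (t : K) : eval (Function.update y i t) g = eval y g := by
  have h1 : (lin y i g).natDegree = 0 := Nat.le_zero.1 ((lin_natDegree y i g).trans hg.le)
  rw [Polynomial.eq_C_of_natDegree_eq_zero h1 |> fun h => (show eval (Function.update y i t) g =
    (lin y i g).coeff 0 by rw [← eval_lin, h, Polynomial.eval_C, Polynomial.coeff_C_zero])]
  have h2 := eval_lin y i g (y i)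
  rw [Function.update_eq_self] at h2
  rw [← h2, Polynomial.eq_C_of_natDegree_eq_zero h1, Polynomial.eval_C, Polynomial.coeff_C_zero]

/-- a polynomial which does not involve any variable is constant -/
theorem const_of_deg (g : MvPolynomial (Fin n) K) (hg : ∀ i, (Lam i g).natDegree = 0) : ∃ c : K, g = C c := by
  refine ⟨eval 0 g, ?_⟩
  apply MvPolynomial.funext
  intro y
  rw [eval_C]
  have key : ∀ s : Finset (Fin n), eval (fun j => if j ∈ s then y j else 0) g = eval 0 g := by
    intro s
    induction s using Finset.induction_on with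
    | empty =>
      congr 1
    | insert a s ha ih =>
      rw [← ih, ← eval_update_of_deg a g (hg a) (fun j => if j ∈ s then y j else 0) (y a)]
      congr 1
      apply congrArg
      funext j
      by_cases hj : j = a
      · rw [hj, Function.update_self, if_pos (Finset.mem_insert_self _ _)]
      · rw [Function.update_of_ne hj]
        by_cases hjs : j ∈ s
        · rw [if_pos hjs, if_pos (Finset.mem_insert_of_mem hjs)]
        · rw [if_neg hjs, if_neg]
          rw [Finset.mem_insert]
          tauto
  have h := key Finset.univ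
  simpa using h

omit [Infinite K] in
/-- the restriction to a plane does not involve the other variables -/
theorem Lam_res {J : Finset (Fin n)} {z : Fin n → K} {i : Fin n} (hi : i ∉ J) (g : MvPolynomial (Fin n) K) :
    Lam i (res J z g) = Polynomial.C (res J z g) := by
  have h : (Lam i).comp ((res J z : MvPolynomial (Fin n) K →ₐ[K] MvPolynomial (Fin n) K) :
        MvPolynomial (Fin n) K →+* MvPolynomial (Fin n) K) =
      Polynomial.C.comp ((res J z : MvPolynomial (Fin n) K →ₐ[K] MvPolynomial (Fin n) K) :
        MvPolynomial (Fin n) K →+* MvPolynomial (Fin n) K) := by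
    apply MvPolynomial.ringHom_ext
    · intro a
      change Lam i (res J z (C a)) = Polynomial.C (res J z (C a))
      rw [res_C, Lam_C]
    · intro l
      change Lam i (res J z (X l)) = Polynomial.C (res J z (X l))
      by_cases hl : l ∈ J
      · rw [res_X hl, Lam_X' i (fun h => hi (h ▸ hl))]
      · rw [res_X' hl, Lam_C]
  exact RingHom.congr_fun h g

end

theorem sqf : S_SQF := by
  intro K _ _ n f hf hsm J z hJ hz hyp
  have : Infinite K := CharZero.infinite K
  set g := res J z f with hgdef
  have hg0 : g ≠ 0 := res_ne_zero.2 ⟨z, on_refl J z, hz⟩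
  have hgi : ∀ i, i ∉ J → (Lam i g).natDegree = 0 := by
    intro i hi
    rw [hgdef, Lam_res hi, Polynomial.natDegree_C]
  -- the hypothesis on lines
  have hline : ∀ i ∈ J, ∀ k, k ∉ J → ∀ y, eval y g ≠ 0 → lin y i g ∣ lin y i (res J z (pderiv k f)) ^ 2 ∧
      2 * (lin y i (res J z (pderiv k f))).natDegree ≤ 4 + (lin y i g).natDegree := by
    intro i hi k hk y hy
    rw [hgdef, eval_res] at hy
    have h1 := hyp i hi k hk (mix J z y) (mix_on J z y) hy
    unfold ND at h1
    rw [pq_lc f _ i (hf i), pq_lc (pderiv k f) _ i (by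
      have h2 : (pderiv k f).degreeOf i ≤ f.degreeOf i := by
        classical
        rw [MvPolynomial.degreeOf_le_iff]
        intro m hm
        rw [MvPolynomial.mem_support_iff, MvPolynomial.coeff_pderiv] at hm
        have h1 : f.coeff (m + Finsupp.single k 1) ≠ 0 := left_ne_zero_of_mul hm
        have h2 : (m + Finsupp.single k 1 : Fin n →₀ ℕ) i ≤ f.degreeOf i :=
          MvPolynomial.monomial_le_degreeOf i (MvPolynomial.mem_support_iff.2 h1)
        rw [Finsupp.add_apply] at h2
        exact le_trans (Nat.le_add_right _ _) h2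
      exact h2.trans (hf i))] at h1
    push Not at h1
    rw [hgdef, lin_res hi, lin_res hi]
    exact h1
  -- prime factors of `g`
  have hprime : ∀ p, Prime p → p ∣ g → ∀ k, k ∉ J → p ∣ res J z (pderiv k f) := by
    intro p hp hpg k hk
    obtain ⟨i, hi⟩ : ∃ i, (Lam i p).natDegree ≠ 0 := by
      by_contra hcon
      push Not at hcon
      obtain ⟨c, hc⟩ := const_of_deg p hcon
      apply hp.not_isUnit
      rw [hc]
      have hc0 : c ≠ 0 := by
        rintro rfl
        rw [C_0] at hc
        exact hp.ne_zero hc
      exact (IsUnit.mk0 c hc0).map C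
    have hiJ : i ∈ J := by
      by_contra hiJ
      have h1 := Polynomial.natDegree_le_of_dvd (map_dvd (Lam i) hpg) (Lam_ne_zero i hg0)
      rw [hgi i hiJ] at h1
      omega
    exact prime_dvd i g _ p hg0 (fun y hy => (hline i hiJ k hk y hy).1) hp hpg hi
  -- `g` is squarefree
  have hsq : Squarefree g := by
    rw [squarefree_iff_irreducible_sq_not_dvd_of_ne_zero hg0]
    intro p hp hpp
    have hp' : Prime p := UniqueFactorizationMonoid.irreducible_iff_prime.1 hp
    have hpg : p ∣ g := (dvd_mul_right p p).trans hpp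
    obtain ⟨i, hi⟩ : ∃ i, (Lam i p).natDegree ≠ 0 := by
      by_contra hcon
      push Not at hcon
      obtain ⟨c, hc⟩ := const_of_deg p hcon
      apply hp'.not_isUnit
      rw [hc]
      have hc0 : c ≠ 0 := by
        rintro rfl
        rw [C_0] at hc
        exact hp'.ne_zero hc
      exact (IsUnit.mk0 c hc0).map C
    obtain ⟨y, hy⟩ := exists_zero' p i hi
    have hzero : ∀ q : MvPolynomial (Fin n) K, p ∣ q → aeval y q = 0 := by
      rintro q ⟨s, rfl⟩
      rw [map_mul, hy, zero_mul]
    refine no_aff' f hf hsm J z y (hzero _ hpg) ?_ ?_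
    · intro l _
      apply hzero
      obtain ⟨s, hs⟩ := hpp
      rw [← hgdef, hs, Derivation.leibniz, Derivation.leibniz]
      simp only [smul_eq_mul]
      refine dvd_add ?_ ?_
      · exact ⟨p * pderiv l s, by ring⟩
      · exact ⟨s * (pderiv l p + pderiv l p), by ring⟩
    · intro l hl
      exact hzero _ (hprime p hp' hpg l hl)
  -- the quotients are constant
  intro k hk
  have hdvd : g ∣ res J z (pderiv k f) := sqf_dvd g hg0 _ hsq (fun p hp hpg => hprime p hp hpg k hk)
  obtain ⟨c, hc⟩ := hdvd
  obtain ⟨c0, hc0⟩ : ∃ c0 : K, c = C c0 := by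
    by_cases hcz : c = 0
    · exact ⟨0, by rw [hcz, C_0]⟩
    · apply const_of_deg
      intro i
      have hmul : (Lam i (res J z (pderiv k f))).natDegree = (Lam i g).natDegree + (Lam i c).natDegree := by
        rw [hc, map_mul, Polynomial.natDegree_mul (Lam_ne_zero i hg0) (Lam_ne_zero i hcz)]
      by_cases hi : i ∈ J
      · by_contra hne
        have hnez : res J z (pderiv k f) ≠ 0 := by
          rw [hc]
          exact mul_ne_zero hg0 hcz
        have h1 := deg_le i g _ hg0 hnez (fun y hy => (hline i hi k hk y hy).2)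
        rw [hmul] at h1
        refine no_inf' f hf hsm J z hi (by rw [← hgdef]; omega) ?_
        intro k' hk'
        by_cases hz' : res J z (pderiv k' f) = 0
        · rw [hz', map_zero, Polynomial.natDegree_zero]
          omega
        · have h2 := deg_le i g _ hg0 hz' (fun y hy => (hline i hi k' hk' y hy).2)
          omega
      · rw [Lam_res hi, Polynomial.natDegree_C] at hmul
        omega
  refine ⟨c0, ?_⟩
  intro y hy
  rw [hc0] at hc
  have h3 := congrArg (eval y) hc
  rw [map_mul, eval_C, hgdef, eval_res, eval_res, mix_eq hy] at h3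
  rw [h3]
  ring

end Pool.Agent.Q224.TT
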