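import Pool.Agent.Q224.TT.Block

/-!
# The order type of the enlarged algebra
-/

set_option autoImplicit false

namespace Q224.TT

open Cardinal Ordinal

/-- a set with `ℵ_ n` elements -/
def KN (n : ℕ) : Type := (ℵ_ (n : Ordinal.{0})).ord.ToType

theorem mk_KN (n : ℕ) : #(KN n) = ℵ_ (n : Ordinal.{0}) := mk_ord_toType _

/-- atoms, sorted by level; there are `ℵ_ n` atoms of level `n` -/
def Atom : Type := Σ n : ℕ, KN n

/-- an atom -/
def Atom.mk (n : ℕ) (y : KN n) : Atom := ⟨n, y⟩

theorem Atom.mk_inj {n : ℕ} {y z : KN n} (h : Atom.mk n y = Atom.mk n z) : y = z :=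
  eq_of_heq (Sigma.mk.inj h).2

open Classical in
noncomputable instance : LinearOrder Atom := linearOrderOfSTO WellOrderingRel

instance : WellFoundedLT Atom := ⟨WellOrderingRel.isWellOrder.wf⟩

/-- the commutative monoid of finite multisets of atoms, ordered colexicographically -/
abbrev Mon : Type := Colex (Atom →₀ ℕ)

/-- `m` has only atoms of level at most `r x` -/
def Lev {X : Type} (r : X → ℕ) (x : X) (m : Mon) : Prop := ∀ i : Atom, (ofColex m) i ≠ 0 → i.1 ≤ r x

theorem lev_zero {X : Type} (r : X → ℕ) (x : X) : Lev r x 0 := fun _ hi => absurd rfl hi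

theorem lev_add {X : Type} (r : X → ℕ) (x : X) (m n : Mon) (hm : Lev r x m) (hn : Lev r x n) :
    Lev r x (m + n) := by
  intro i hi
  by_cases h : (ofColex m) i = 0
  · refine hn i fun h' => hi ?_
    show (ofColex m) i + (ofColex n) i = 0
    rw [h, h']
  · exact hm i h

theorem lev_up {X : Type} [LinearOrder X] {r : X → ℕ} (hr : Monotone r) (x y : X) (m : Mon)
    (hxy : x ≤ y) (hm : Lev r x m) : Lev r y m := fun i hi => (hm i hi).trans (hr hxy)

theorem card_atoms (n : ℕ) : #{i : Atom // i.1 ≤ n} ≤ ℵ_ (n : Ordinal.{0}) := by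
  have e : {i : Atom // i.1 ≤ n} ≃ (Σ k : {k : ℕ // k ≤ n}, KN k) :=
    { toFun := fun i => ⟨⟨i.1.1, i.2⟩, i.1.2⟩
      invFun := fun i => ⟨⟨i.1.1, i.2⟩, i.1.2⟩
      left_inv := fun i => rfl
      right_inv := fun i => rfl }
  rw [mk_congr e, mk_sigma]
  refine (sum_le_sum _ (fun _ => ℵ_ (n : Ordinal.{0})) ?_).trans ?_
  · rintro ⟨k, hk⟩
    rw [mk_KN]
    exact aleph_le_aleph.2 (by exact_mod_cast hk)
  · rw [sum_const']
    calc #{k : ℕ // k ≤ n} * ℵ_ (n : Ordinal.{0}) ≤ ℵ₀ * ℵ_ (n : Ordinal.{0}) :=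
          mul_le_mul_left (mk_le_aleph0) _
      _ = ℵ_ (n : Ordinal.{0}) := aleph0_mul_aleph _

theorem card_lev (n : ℕ) : #{m : Mon // ∀ i : Atom, (ofColex m) i ≠ 0 → i.1 ≤ n} ≤
    ℵ_ (n : Ordinal.{0}) := by
  have h1 : #{m : Mon // ∀ i : Atom, (ofColex m) i ≠ 0 → i.1 ≤ n} ≤
      #({i : Atom // i.1 ≤ n} →₀ ℕ) := by
    refine mk_le_of_injective (f := fun m => Finsupp.subtypeDomain (fun i : Atom => i.1 ≤ n)
      (ofColex m.1)) ?_
    intro a b hab
    apply Subtype.ext
    apply Finsupp.ext (f := ofColex a.1) (g := ofColex b.1)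
    intro i
    by_cases hi : i.1 ≤ n
    · have := DFunLike.congr_fun hab ⟨i, hi⟩
      exact this
    · have ha : (ofColex a.1) i = 0 := by
        by_contra h
        exact hi (a.2 i h)
      have hb : (ofColex b.1) i = 0 := by
        by_contra h
        exact hi (b.2 i h)
      rw [ha, hb]
  have : Nonempty {i : Atom // i.1 ≤ n} := by
    have : Nonempty (KN 0) := by
      rw [← mk_ne_zero_iff, mk_KN]
      exact (aleph_pos _).ne'
    obtain ⟨x⟩ := this
    exact ⟨⟨⟨0, x⟩, Nat.zero_le n⟩⟩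
  rw [mk_finsupp_nat] at h1
  refine h1.trans (max_le (card_atoms n) (aleph0_le_aleph _))

variable {X : Type} [LinearOrder X] [WellFoundedLT X]

/-- the order type of the enlarged algebra is `ω_ω` -/
theorem type_blk [Countable X] {r : X → ℕ} (hr : Monotone r) (hu : ∀ n, ∃ x, n ≤ r x) :
    Ordinal.type (fun a b : Blk (Lev r) => a < b) = (ℵ_ ω).ord := by
  apply le_antisymm
  · by_contra hcon
    rw [not_le] at hcon
    obtain ⟨p, hp⟩ := typein_surj _ hcon
    have h1 := card_typein (r := fun a b : Blk (Lev r) => a < b) p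
    rw [hp, card_ord] at h1
    have h2 : #{q : Blk (Lev r) // q < p} ≤
        #(X × {m : Mon // ∀ i : Atom, (ofColex m) i ≠ 0 → i.1 ≤ r p.fst}) := by
      refine mk_le_of_injective (f := fun q => (q.1.fst, ⟨q.1.snd, fun i hi =>
        (q.1.prop i hi).trans (hr (Blk.fst_le q.2.le))⟩)) ?_
      intro a b hab
      simp only [Prod.mk.injEq, Subtype.mk.injEq] at hab
      apply Subtype.ext
      apply Subtype.ext
      exact Prod.ext hab.1 hab.2
    rw [← h1, mk_prod, Cardinal.lift_id, Cardinal.lift_id] at h2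
    have h3 : #X * #{m : Mon // ∀ i : Atom, (ofColex m) i ≠ 0 → i.1 ≤ r p.fst} ≤
        ℵ_ ((r p.fst : ℕ) : Ordinal.{0}) := by
      refine (mul_le_mul' mk_le_aleph0 (card_lev (r p.fst))).trans ?_
      rw [aleph0_mul_aleph]
    have h4 := h2.trans h3
    rw [aleph_le_aleph] at h4
    exact absurd h4 (not_le.2 (natCast_lt_omega0 _))
  · rw [ord_le, card_type, aleph_limit isSuccLimit_omega0]
    apply ciSup_le'
    rintro ⟨o, ho⟩
    obtain ⟨n, rfl⟩ := lt_omega0.1 ho
    obtain ⟨x, hx⟩ := hu n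
    have : #(KN n) ≤ #(Blk (Lev r)) := by
      refine mk_le_of_injective (f := fun y => Blk.mk x (toColex (Finsupp.single
        (Atom.mk n y) 1)) ?_) ?_
      · intro i hi
        have h1 : (Finsupp.single (Atom.mk n y) 1) i ≠ 0 := hi
        by_cases h2 : i = Atom.mk n y
        · rw [h2]
          exact hx
        · exact absurd (Finsupp.single_eq_of_ne h2) h1
      · intro y z hyz
        have h2 : (Finsupp.single (Atom.mk n y) 1) = Finsupp.single (Atom.mk n z) 1 :=
          congrArg Blk.snd hyz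
        exact Atom.mk_inj ((Finsupp.single_left_inj (one_ne_zero)).1 h2)
    rwa [mk_KN] at this

end Q224.TT
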