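import Pool.Agent.Q224.TT.Defs

/-!
# Ground terms as words, and an auxiliary monotone well-order
-/

set_option autoImplicit false

namespace Q224.TT

variable {S : Type} {ar : S → ℕ}

/-- concatenation of a family of words -/
def cat {β : Type} : {n : ℕ} → (Fin n → List β) → List β
  | 0, _ => []
  | _ + 1, w => w 0 ++ cat (fun i => w i.succ)

/-- Polish notation -/
def word : Ground ar → List (Option S)
  | .app f ts => some f :: cat (fun i => word (ts i))
  | .fresh _ => [none]

theorem cat_inj {n : ℕ} (ts ts' : Fin n → Ground ar)
    (ih : ∀ i, ∀ t (u v : List (Option S)), word (ts i) ++ u = word t ++ v → ts i = t ∧ u = v) :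
    ∀ u v : List (Option S), cat (fun i => word (ts i)) ++ u = cat (fun i => word (ts' i)) ++ v →
      ts = ts' ∧ u = v := by
  induction n with
  | zero =>
    intro u v h
    exact ⟨Subsingleton.elim _ _, by simpa [cat] using h⟩
  | succ n IH =>
    intro u v h
    simp only [cat, List.append_assoc] at h
    obtain ⟨h1, h2⟩ := ih 0 _ _ _ h
    obtain ⟨h3, h4⟩ := IH (fun i => ts i.succ) (fun i => ts' i.succ) (fun i => ih i.succ) _ _ h2
    refine ⟨?_, h4⟩
    funext i
    refine Fin.cases h1 (fun j => ?_) i
    exact congrFun h3 j

theorem word_inj (s : Ground ar) : ∀ t (u v : List (Option S)), word s ++ u = word t ++ v →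
    s = t ∧ u = v := by
  induction s with
  | app f ts ih =>
    intro t u v h
    cases t with
    | app g ts' =>
      simp only [word, List.cons_append, List.cons.injEq, Option.some.injEq] at h
      obtain ⟨rfl, h⟩ := h
      obtain ⟨h1, h2⟩ := cat_inj ts ts' ih u v h
      exact ⟨by rw [h1], h2⟩
    | fresh hf =>
      simp [word] at h
  | fresh hf =>
    intro t u v h
    cases t with
    | app g ts' =>
      simp [word] at h
    | fresh hf' =>
      simp only [word, List.cons_append, List.cons.injEq, List.nil_append, true_and] at h
      exact ⟨rfl, h⟩

theorem word_injective : Function.Injective (word (ar := ar)) := by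
  intro s t h
  have := word_inj s t [] [] (by rw [h])
  exact this.1

instance [Countable S] : Countable (Ground ar) := word_injective.countable

theorem cat_update {n : ℕ} (ts : Fin n → Ground ar) (i : Fin n) :
    ∃ p q : List (Option S), ∀ s, cat (fun j => word (Function.update ts i s j)) =
      p ++ word s ++ q := by
  induction n with
  | zero => exact i.elim0
  | succ n IH =>
    refine Fin.cases ?_ (fun i => ?_) i
    · refine ⟨[], cat (fun j : Fin n => word (ts j.succ)), fun s => ?_⟩
      simp only [cat, Function.update_self, List.nil_append]
      congr 2
    · obtain ⟨p, q, h⟩ := IH (fun j => ts j.succ) i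
      refine ⟨word (ts 0) ++ p, q, fun s => ?_⟩
      simp only [cat]
      rw [Function.update_of_ne (Fin.succ_ne_zero i).symm]
      have e : (fun j : Fin n => word (Function.update ts i.succ s j.succ)) =
          (fun j => word (Function.update (fun j => ts j.succ) i s j)) := by
        funext j
        congr 1
        by_cases hj : j = i
        · subst hj
          rw [Function.update_self, Function.update_self]
        · rw [Function.update_of_ne hj, Function.update_of_ne]
          intro h
          exact hj (Fin.succ_injective _ h)
      rw [e, h s]
      simp only [List.append_assoc]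

theorem lex_append {α : Type} {r : α → α → Prop} : ∀ {s t : List α}, s.length = t.length →
    List.Lex r s t → ∀ q, List.Lex r (s ++ q) (t ++ q) := by
  intro s t hl h
  induction h with
  | nil => simp at hl
  | cons h ih =>
    intro q
    simp only [List.length_cons, Nat.add_right_cancel_iff] at hl
    exact List.Lex.cons (ih hl q)
  | rel h =>
    intro q
    exact List.Lex.rel h

theorem shortlex_append {α : Type} {r : α → α → Prop} {s t : List α} (h : List.Shortlex r s t)
    (q : List α) : List.Shortlex r (s ++ q) (t ++ q) := by
  rcases List.shortlex_def.1 h with h | ⟨h1, h2⟩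
  · apply List.Shortlex.of_length_lt
    simp only [List.length_append]
    omega
  · exact List.Shortlex.of_lex (by simp [h1]) (lex_append h1 h2 q)

/-- an auxiliary monotone well-order on ground terms -/
def aux (s t : Ground ar) : Prop := List.Shortlex WellOrderingRel (word t) (word s)

theorem aux_mono : Monotonic (aux (ar := ar)) := by
  intro f v i s t h
  obtain ⟨p, q, hpq⟩ := cat_update v i
  unfold aux at h ⊢
  simp only [word]
  rw [hpq s, hpq t]
  have h1 := (shortlex_append h q).append_left (some f :: p)
  simpa using h1

theorem aux_wf : WellFounded (fun s t : Ground ar => aux t s) :=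
  InvImage.wf _ (List.Shortlex.wf WellOrderingRel.isWellOrder.wf)

theorem aux_trich (s t : Ground ar) : aux s t ∨ s = t ∨ aux t s := by
  rcases trichotomous_of (List.Shortlex WellOrderingRel) (word t) (word s) with h | h | h
  · exact Or.inl h
  · exact Or.inr (Or.inl (word_injective h).symm)
  · exact Or.inr (Or.inr h)

end Q224.TT
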